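import Mathlib

set_option autoImplicit false

/-! # A choice of residue classes by averaging, for signed weights -/

namespace Pool.Agent.H22.RC

open Finset

open scoped Classical

/-- For every finite set of primes, signed weights and a finite set of integers there are classes such
that the weight of what is left is at least the average. -/
theorem avg_classes (P : Finset ℕ) (hP : ∀ p ∈ P, p.Prime) : ∀ (J : Finset ℤ) (f : ℤ → ℝ),
    ∃ b : ℕ → ℤ, (∏ p ∈ P, (1 - 1 / (p : ℝ))) * ∑ j ∈ J, f j ≤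
      ∑ j ∈ J.filter (fun j => ∀ p ∈ P, ¬ (p : ℤ) ∣ j - b p), f j := by
  induction P using Finset.induction_on with
  | empty =>
    intro J f
    refine ⟨fun _ => 0, ?_⟩
    simp
  | insert q P hq ih =>
    intro J f
    have hqp : q.Prime := hP q (mem_insert_self _ _)
    have hq0 : (0 : ℝ) < q := by exact_mod_cast hqp.pos
    have hP' : ∀ p ∈ P, p.Prime := fun p hp => hP p (mem_insert_of_mem hp)
    have hprod : 0 ≤ ∏ p ∈ P, (1 - 1 / (p : ℝ)) := by
      apply Finset.prod_nonneg
      intro p hp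
      have : (1 : ℝ) ≤ p := by exact_mod_cast (hP' p hp).one_lt.le
      rw [sub_nonneg, div_le_one (by linarith)]
      exact this
    -- a class for q
    have h1 : ∑ c ∈ range q, ∑ j ∈ J.filter (fun j => ¬ (q : ℤ) ∣ j - (c : ℤ)), f j =
        ((q : ℝ) - 1) * ∑ j ∈ J, f j := by
      simp_rw [sum_filter]
      rw [sum_comm, mul_sum]
      apply sum_congr rfl
      intro j _
      rw [← sum_filter, sum_const, nsmul_eq_mul]
      congr 1
      have h2 : (range q).filter (fun c : ℕ => ¬ (q : ℤ) ∣ j - (c : ℤ)) =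
          (range q).erase ((j % (q : ℤ)).toNat) := by
        have hqz : (0 : ℤ) < q := by exact_mod_cast hqp.pos
        have hj0 : 0 ≤ j % (q : ℤ) := Int.emod_nonneg _ hqz.ne'
        have hj1 : j % (q : ℤ) < q := Int.emod_lt_of_pos _ hqz
        ext c
        rw [mem_filter, mem_erase, mem_range]
        constructor
        · rintro ⟨hc, hd⟩
          refine ⟨?_, hc⟩
          rintro rfl
          apply hd
          rw [Int.toNat_of_nonneg hj0]
          exact Int.dvd_self_sub_emod
        · rintro ⟨hc, hcq⟩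
          refine ⟨hcq, fun hd => hc ?_⟩
          have h3 : j % (q : ℤ) = (c : ℤ) % q := (Int.modEq_iff_dvd.2 hd).symm
          rw [h3, Int.emod_eq_of_lt (by positivity) (by exact_mod_cast hcq)]
          simp
      rw [h2, card_erase_of_mem, card_range]
      · rw [Nat.cast_sub hqp.one_lt.le]
        simp
      · rw [mem_range]
        have hqz : (0 : ℤ) < q := by exact_mod_cast hqp.pos
        have hj0 : 0 ≤ j % (q : ℤ) := Int.emod_nonneg _ hqz.ne'
        have hj1 : j % (q : ℤ) < q := Int.emod_lt_of_pos _ hqz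
        omega
    obtain ⟨c, hc, hcs⟩ : ∃ c ∈ range q, (1 - 1 / (q : ℝ)) * ∑ j ∈ J, f j ≤
        ∑ j ∈ J.filter (fun j => ¬ (q : ℤ) ∣ j - (c : ℤ)), f j := by
      by_contra hcon
      push Not at hcon
      have h3 := sum_lt_sum_of_nonempty (s := range q) ⟨0, mem_range.2 hqp.pos⟩ hcon
      rw [h1, sum_const, card_range, nsmul_eq_mul] at h3
      have h4 : (q : ℝ) * ((1 - 1 / (q : ℝ)) * ∑ j ∈ J, f j) = ((q : ℝ) - 1) * ∑ j ∈ J, f j := by
        field_simp
      linarith
    obtain ⟨b, hb⟩ := ih hP' (J.filter (fun j => ¬ (q : ℤ) ∣ j - (c : ℤ))) f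
    refine ⟨fun p => if p = q then (c : ℤ) else b p, ?_⟩
    rw [prod_insert hq]
    have h5 : (J.filter (fun j => ¬ (q : ℤ) ∣ j - (c : ℤ))).filter (fun j => ∀ p ∈ P, ¬ (p : ℤ) ∣ j - b p) =
        J.filter (fun j => ∀ p ∈ insert q P, ¬ (p : ℤ) ∣ j - (if p = q then (c : ℤ) else b p)) := by
      ext j
      rw [mem_filter, mem_filter, mem_filter]
      constructor
      · rintro ⟨⟨h6, h7⟩, h8⟩
        refine ⟨h6, fun p hp => ?_⟩
        rcases mem_insert.1 hp with rfl | hpP
        · rwa [if_pos rfl]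
        · have : p ≠ q := by rintro rfl; exact hq hpP
          rw [if_neg this]
          exact h8 p hpP
      · rintro ⟨h6, h7⟩
        refine ⟨⟨h6, ?_⟩, fun p hp => ?_⟩
        · have := h7 q (mem_insert_self _ _)
          rwa [if_pos rfl] at this
        · have h8 := h7 p (mem_insert_of_mem hp)
          have : p ≠ q := by rintro rfl; exact hq hp
          rwa [if_neg this] at h8
    rw [h5] at hb
    calc (1 - 1 / (q : ℝ)) * (∏ p ∈ P, (1 - 1 / (p : ℝ))) * ∑ j ∈ J, f j
        = (∏ p ∈ P, (1 - 1 / (p : ℝ))) * ((1 - 1 / (q : ℝ)) * ∑ j ∈ J, f j) := by ring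
      _ ≤ (∏ p ∈ P, (1 - 1 / (p : ℝ))) *
          ∑ j ∈ J.filter (fun j => ¬ (q : ℤ) ∣ j - (c : ℤ)), f j := mul_le_mul_of_nonneg_left hcs hprod
      _ ≤ _ := hb

end Pool.Agent.H22.RC
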