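import Pool.Graph.R_seed8.Y829.RZ3
import Pool.Agent.H22.RC.Avg

set_option autoImplicit false
set_option maxHeartbeats 4000000

/-! # The upper bound sieve for arbitrary classes, with some primes left out -/

namespace Pool.Agent.H22.RC

open Finset

open scoped Classical

/-- the primes up to `y` outside `F` -/
noncomputable def PQ (y : ℕ) (F : Finset ℕ) : Finset ℕ := (Icc 1 y).filter (fun p => p.Prime ∧ p ∉ F)

theorem mem_PQ {y : ℕ} {F : Finset ℕ} {p : ℕ} : p ∈ PQ y F ↔ p ≤ y ∧ p.Prime ∧ p ∉ F := by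
  rw [PQ, mem_filter, mem_Icc]
  constructor
  · rintro ⟨⟨_, h⟩, h1, h2⟩; exact ⟨h, h1, h2⟩
  · rintro ⟨h, h1, h2⟩; exact ⟨⟨h1.pos, h⟩, h1, h2⟩

theorem one_sub_pos {p : ℕ} (hp : p.Prime) : 0 < 1 - 1 / (p : ℝ) := by
  have : (2 : ℝ) ≤ p := by exact_mod_cast hp.two_le
  have h : 1 / (p : ℝ) ≤ 1 / 2 := one_div_le_one_div_of_le (by norm_num) this
  linarith

/-- classes modulo all the primes up to `y` -/
theorem crt_all (y : ℕ) (b : ℕ → ℤ) : ∃ n : ℕ, ∀ p : ℕ, p.Prime → p ≤ y → (p : ℤ) ∣ (n : ℤ) + b p := by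
  obtain ⟨n, hn⟩ := Nat.chineseRemainderOfFinset (fun p : ℕ => ((-(b p)) % (p : ℤ)).toNat) (fun p => p)
    ((Icc 1 y).filter Nat.Prime) (fun p hp => (mem_filter.1 hp).2.ne_zero)
    (fun p hp q hq hpq => (Nat.coprime_primes (mem_filter.1 hp).2 (mem_filter.1 hq).2).2 hpq)
  refine ⟨n, fun p hp hpy => ?_⟩
  have h1 := hn p (mem_filter.2 ⟨mem_Icc.2 ⟨hp.pos, hpy⟩, hp⟩)
  have hp0 : (0 : ℤ) < p := by exact_mod_cast hp.pos
  have h2 : (n : ℤ) ≡ ((-(b p)) % (p : ℤ)) [ZMOD p] := by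
    have h3 := (Int.natCast_modEq_iff (a := n) (b := ((-(b p)) % (p : ℤ)).toNat) (n := p)).2 h1
    rwa [Int.toNat_of_nonneg (Int.emod_nonneg _ hp0.ne')] at h3
  have h4 : (n : ℤ) ≡ -(b p) [ZMOD p] := h2.trans (Int.mod_modEq _ _)
  have h5 := h4.symm.dvd
  rwa [sub_neg_eq_add] at h5

theorem upper_sieve : ∃ C : ℝ, 0 < C ∧ ∃ y₀ : ℕ, ∀ y : ℕ, y₀ ≤ y → ∀ (F : Finset ℕ) (H : ℕ), y + 1 ≤ H →
    ∀ b : ℕ → ℤ, (((Icc (1 : ℤ) H).filter (fun j => ∀ p ∈ PQ y F, ¬ (p : ℤ) ∣ j - b p)).card : ℝ) ≤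
      C * H * ∏ p ∈ PQ y F, (1 - 1 / (p : ℝ)) := by
  obtain ⟨B, ρ, hB, hρ0, hρ1, hg⟩ := Pool.Agent.Y829.RZ.geo
  obtain ⟨z0, hz0⟩ := hg 1 le_rfl 1 one_pos
  refine ⟨B * ρ ^ 1 + 1 + 1, by positivity, z0, fun y hy F H hH b => ?_⟩
  set J := (Icc (1 : ℤ) H).filter (fun j => ∀ p ∈ PQ y F, ¬ (p : ℤ) ∣ j - b p) with hJ
  set F' := (Icc 1 y).filter (fun p => p.Prime ∧ p ∈ F) with hF'
  obtain ⟨b', hb'⟩ := avg_classes F' (fun p hp => (mem_filter.1 hp).2.1) J (fun _ => 1)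
  rw [sum_const, sum_const, nsmul_eq_mul, nsmul_eq_mul, mul_one, mul_one] at hb'
  obtain ⟨n, hn⟩ := crt_all y (fun p => if p ∈ F then b' p else b p)
  have hz := hz0 (y + 1) (by omega) n H 1 one_pos (Nat.coprime_one_left _) (by
    push_cast
    rw [Real.rpow_one, div_one]
    exact_mod_cast hH)
  rw [Nat.cast_one, div_one] at hz
  have hz' := (abs_le.1 hz).2
  have hcard : ((J.filter (fun j => ∀ p ∈ F', ¬ (p : ℤ) ∣ j - b' p)).card : ℝ) ≤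
      Pool.Agent.W89.Sv.sift 1 (Icc 1 H) (fun h => n + h) 1 (y + 1) := by
    unfold Pool.Agent.W89.Sv.sift
    apply Nat.cast_le.2
    apply card_le_card_of_injOn (fun j => j.toNat)
    · intro j hj
      simp only [coe_filter, Set.mem_ofPred_eq] at hj ⊢
      obtain ⟨hj1, hj2⟩ := hj
      rw [hJ, mem_filter, mem_Icc] at hj1
      obtain ⟨⟨hj3, hj4⟩, hj5⟩ := hj1
      have hjt : (j.toNat : ℤ) = j := Int.toNat_of_nonneg (by omega)
      refine ⟨mem_Icc.2 ⟨by omega, by omega⟩, one_dvd _, ?_⟩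
      unfold Pool.Agent.W89.Sv.PZ
      apply Nat.Coprime.prod_right
      intro p hp
      rw [Pool.Agent.W89.Sv.mem_PP] at hp
      obtain ⟨hp1, hp2, _⟩ := hp
      rw [Nat.coprime_comm, Nat.Prime.coprime_iff_not_dvd hp2]
      intro hd
      have hd' : (p : ℤ) ∣ (n : ℤ) + j := by
        have : (p : ℤ) ∣ ((n + j.toNat : ℕ) : ℤ) := by exact_mod_cast hd
        push_cast at this
        rwa [hjt] at this
      have hnp := hn p hp2 (by omega)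
      by_cases hpF : p ∈ F
      · simp only [hpF, if_true] at hnp
        apply hj2 p (mem_filter.2 ⟨mem_Icc.2 ⟨hp2.pos, by omega⟩, hp2, hpF⟩)
        have := dvd_sub hd' hnp
        rwa [add_sub_add_left_eq_sub] at this
      · simp only [hpF, if_false] at hnp
        apply hj5 p (mem_PQ.2 ⟨by omega, hp2, hpF⟩)
        have := dvd_sub hd' hnp
        rwa [add_sub_add_left_eq_sub] at this
    · intro i hi j hj hij
      simp only [coe_filter, Set.mem_ofPred_eq, hJ, mem_filter, mem_Icc] at hi hj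
      have h1 : (i.toNat : ℤ) = j.toNat := by exact_mod_cast hij
      rw [Int.toNat_of_nonneg (by omega), Int.toNat_of_nonneg (by omega)] at h1
      exact h1
  have hVZ : Pool.Agent.W89.Sv.VZ 1 (y + 1) = (∏ p ∈ F', (1 - 1 / (p : ℝ))) * ∏ p ∈ PQ y F, (1 - 1 / (p : ℝ)) := by
    unfold Pool.Agent.W89.Sv.VZ
    rw [← prod_union]
    · apply prod_congr _ (fun _ _ => rfl)
      ext p
      rw [mem_union, mem_PQ, Pool.Agent.W89.Sv.mem_PP, hF', mem_filter, mem_Icc]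
      constructor
      · rintro ⟨h1, h2, _⟩
        by_cases hpF : p ∈ F
        · exact Or.inl ⟨⟨h2.pos, by omega⟩, h2, hpF⟩
        · exact Or.inr ⟨by omega, h2, hpF⟩
      · have h1 : ∀ {q : ℕ}, q.Prime → ¬ q ∣ 1 := fun hq hd => hq.one_lt.ne' (Nat.dvd_one.1 hd)
        rintro (⟨⟨h2, h3⟩, h4, h5⟩ | ⟨h3, h4, h5⟩)
        · exact ⟨by omega, h4, h1 h4⟩
        · exact ⟨by omega, h4, h1 h4⟩
    · rw [disjoint_left]
      intro p hp hp'
      exact (mem_PQ.1 hp').2.2 (mem_filter.1 hp).2.2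
  have hF0 : 0 < ∏ p ∈ F', (1 - 1 / (p : ℝ)) := prod_pos fun p hp => one_sub_pos (mem_filter.1 hp).2.1
  have hP0 : 0 < ∏ p ∈ PQ y F, (1 - 1 / (p : ℝ)) := prod_pos fun p hp => one_sub_pos (mem_PQ.1 hp).2.1
  rw [hVZ] at hz'
  have h1 : (∏ p ∈ F', (1 - 1 / (p : ℝ))) * (J.card : ℝ) ≤
      (∏ p ∈ F', (1 - 1 / (p : ℝ))) * ((B * ρ ^ 1 + 1 + 1) * H * ∏ p ∈ PQ y F, (1 - 1 / (p : ℝ))) := by
    refine hb'.trans (hcard.trans ?_)
    have h2 : (B * ρ ^ 1 + 1) * ((H : ℝ) * ((∏ p ∈ F', (1 - 1 / (p : ℝ))) * ∏ p ∈ PQ y F, (1 - 1 / (p : ℝ)))) +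
        (H : ℝ) * ((∏ p ∈ F', (1 - 1 / (p : ℝ))) * ∏ p ∈ PQ y F, (1 - 1 / (p : ℝ))) =
        (∏ p ∈ F', (1 - 1 / (p : ℝ))) * ((B * ρ ^ 1 + 1 + 1) * H * ∏ p ∈ PQ y F, (1 - 1 / (p : ℝ))) := by
      ring
    linarith
  exact le_of_mul_le_mul_left h1 hF0

end Pool.Agent.H22.RC
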