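import Pool.Graph.R_seed8.TH101.RG.Surv
import Pool.Agent.H22.RC.Ups

set_option autoImplicit false
set_option maxHeartbeats 4000000

/-! # The window around the centre -/

namespace Pool.Agent.H22.RC

open Finset Pool.Agent.H318R2.Cr Pool.Agent.H398R2.RK Pool.Agent.TH101.RG

open scoped Classical

/-- the primes whose classes are chosen by averaging -/
noncomputable def GP (y : ℕ) (F : Finset ℕ) : Finset ℕ :=
  (PQ y F).filter (fun p => (Real.log y) ^ 2 < (p : ℝ) ∧ Real.log p ≤ V0 y)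

theorem mem_GP {y : ℕ} {F : Finset ℕ} {p : ℕ} :
    p ∈ GP y F ↔ p ∈ PQ y F ∧ (Real.log y) ^ 2 < (p : ℝ) ∧ Real.log p ≤ V0 y := by
  rw [GP, mem_filter]

/-- the numbers of the window which are not removed by the class zero -/
theorem window_half (C₀ C₁ : ℝ) (hC₁ : 0 ≤ C₁) : ∃ C : ℝ, 0 < C ∧ ∃ y₀ : ℕ, ∀ y : ℕ, y₀ ≤ y → ∀ F : Finset ℕ,
    (∀ q ∈ F, q.Prime) → ∑ q ∈ F, (1 : ℝ) / q ≤ C₀ →
    ∑ q ∈ F.filter (fun q : ℕ => V0 y < Real.log q), (1 : ℝ) / q ≤ C₁ / Real.log y →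
    ∀ H : ℕ, y ≤ H → (H : ℝ) ≤ y * (Real.log y) ^ 2 →
    (((range (H + 1)).filter (fun k => ∀ p ∈ PQ y F, p ∉ GP y F → ¬ p ∣ k)).card : ℝ) *
      ∏ p ∈ GP y F, (1 - 1 / (p : ℝ)) ≤
      C * H * (Real.log (Real.log y)) ^ 2 /
        ((Real.log y) ^ 2 * Real.log (Real.log (Real.log y))) := by
  obtain ⟨c₁, c₂, hc₁, hc₁₂, hV⟩ := cz_bounds
  obtain ⟨y₁, hsm⟩ := smooth_count
  obtain ⟨t₀, hev⟩ := ev_rec 0
  have hc₂ : 0 < c₂ := hc₁.trans_le hc₁₂
  refine ⟨3 * ((C₁ + 2 + 10 * Real.exp (2 * C₀)) * (c₂ / c₁ * 40) * Real.exp (2 * C₀)), by positivity,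
    ⌈max y₁ (Real.exp (Real.exp t₀))⌉₊, fun y hyN F hF hFsum hFtail H hyH hHy => ?_⟩
  have hy : max y₁ (Real.exp (Real.exp t₀)) ≤ (y : ℝ) := (Nat.le_ceil _).trans (by exact_mod_cast hyN)
  have hyH' : (y : ℝ) ≤ H := by exact_mod_cast hyH
  have hsm' := hsm y ((le_max_left _ _).trans hy) H hyH'
  have hy' := (le_max_right _ _).trans hy
  have hy0 : (0 : ℝ) < y := (Real.exp_pos _).trans_le hy'
  have hL1' : Real.exp t₀ ≤ Real.log y := by
    rw [← Real.log_exp (Real.exp t₀)]; exact Real.log_le_log (Real.exp_pos _) hy'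
  have hly : 0 < Real.log y := (Real.exp_pos _).trans_le hL1'
  unfold V0 at hFtail
  set τ := Real.log (Real.log y) with hτ
  have htt : t₀ ≤ τ := by
    rw [← Real.log_exp t₀]; exact Real.log_le_log (Real.exp_pos _) hL1'
  obtain ⟨h1, h2, h3, h4, h5, h6, h7K⟩ := hev τ htt
  have hLe : Real.log y = Real.exp τ := by rw [hτ, Real.exp_log hly]
  have hye : (y : ℝ) = Real.exp (Real.exp τ) := by rw [← hLe, Real.exp_log hy0]
  set V0 := Real.log y * Real.log τ / (10 * τ) with hV0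
  have ht0 : 0 < τ := by linarith
  have hlt0 : 0 < Real.log τ := by linarith
  have hV1 : 2 * τ ≤ V0 := by
    rw [hV0, le_div_iff₀ (by positivity), hLe]
    nlinarith [Real.exp_pos τ]
  have hV1le : V0 ≤ Real.log y := by
    rw [hV0, div_le_iff₀ (by positivity), hLe]
    nlinarith [Real.exp_pos τ]
  set v₀ : ℝ := (Real.log y) ^ 2 with hv₀
  have hv₀e : v₀ = Real.exp (2 * τ) := by
    rw [hv₀, hLe, ← Real.exp_nat_mul]; push_cast; ring_nf
  have hv₀0 : 0 < v₀ := by positivity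
  have hL100 : 100 ≤ Real.log y := by rw [hLe]; exact h4
  have hv₀big : 10000 ≤ v₀ := by rw [hv₀]; nlinarith
  have hv₀y : v₀ ≤ y := by
    rw [hv₀e, hye]; apply Real.exp_le_exp.2; linarith
  set u : ℕ := ⌊v₀⌋₊ with hu
  set v : ℕ := ⌊Real.exp V0⌋₊ with hv
  have huv : u ≤ v := by
    rw [hu, hv]; apply Nat.floor_le_floor; rw [hv₀e]; exact Real.exp_le_exp.2 hV1
  have hu2 : 2 ≤ u := by
    rw [hu, Nat.le_floor_iff hv₀0.le]; push_cast; linarith
  have hvle : (v : ℝ) ≤ Real.exp V0 := Nat.floor_le (Real.exp_pos _).le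
  have hule : (u : ℝ) ≤ v₀ := Nat.floor_le hv₀0.le
  have hv0 : (0 : ℝ) < v := by exact_mod_cast (by omega : 0 < v)
  have hu0 : (0 : ℝ) < u := by exact_mod_cast (by omega : 0 < u)
  have hlu : Real.log u ≤ 2 * τ := by
    rw [← Real.log_exp (2 * τ), ← hv₀e]; exact Real.log_le_log hu0 hule
  have hlu0 : 0 < Real.log u := Real.log_pos (by exact_mod_cast (by omega : 1 < u))
  have hlv0 : 0 < Real.log v := Real.log_pos (by exact_mod_cast (by omega : 1 < v))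
  have hlv : V0 / 2 ≤ Real.log v := by
    have h7 : Real.exp V0 < v + 1 := Nat.lt_floor_add_one _
    have h8 : (2 : ℝ) ≤ v := by exact_mod_cast (by omega : 2 ≤ v)
    have h9 : Real.exp V0 ≤ (v : ℝ) ^ 2 := by nlinarith
    have h10 := Real.log_le_log (Real.exp_pos _) h9
    rw [Real.log_exp, Real.log_pow] at h10
    push_cast at h10; linarith
  have hvy : (v : ℝ) ≤ y := hvle.trans (by
    rw [← Real.exp_log hy0]; exact Real.exp_le_exp.2 hV1le)
  have hy2 : 2 ≤ y := by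
    have : (2 : ℝ) ≤ y := by linarith
    exact_mod_cast this
  have hH0 : (0 : ℝ) < H := by linarith
  -- the primes of the greedy step
  set P0 : Finset ℕ := (Icc 1 v).filter (fun p : ℕ => p.Prime ∧ v₀ < (p : ℝ)) with hP0
  set E0 : Finset ℕ := P0.filter (fun p => p ∈ F) with hE0
  set P : Finset ℕ := P0 \ E0 with hPdef
  have hP0p : ∀ p ∈ P0, p.Prime ∧ 3 ≤ p := by
    intro p hp
    rw [hP0, mem_filter] at hp
    refine ⟨hp.2.1, ?_⟩
    have : (3 : ℝ) < p := by linarith [hp.2.2]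
    have : 3 < p := by exact_mod_cast this
    omega
  have hP0v : ∀ p ∈ P0, v₀ < (p : ℝ) := fun p hp => (mem_filter.1 hp).2.2
  have hP0v' : ∀ p ∈ P0, p ≤ v := fun p hp => (mem_Icc.1 (mem_filter.1 hp).1).2
  have hPP0 : P ⊆ P0 := sdiff_subset
  have hPmem : ∀ p : ℕ, p.Prime → (p ∈ P ↔ v₀ < (p : ℝ) ∧ Real.log p ≤ V0 ∧ p ∉ F) := by
    intro p hp
    have hp0 : (0 : ℝ) < p := by exact_mod_cast hp.pos
    have hm0 : p ∈ P0 ↔ (v₀ < (p : ℝ) ∧ Real.log p ≤ V0) := by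
      rw [hP0, mem_filter, mem_Icc, Real.log_le_iff_le_exp hp0, hv,
        Nat.le_floor_iff (Real.exp_pos _).le]
      constructor
      · rintro ⟨⟨_, h⟩, _, h'⟩; exact ⟨h', h⟩
      · rintro ⟨h, h'⟩; exact ⟨⟨hp.pos, h'⟩, hp, h⟩
    have hmE : p ∈ E0 ↔ (p ∈ P0 ∧ p ∈ F) := by rw [hE0, mem_filter]
    have hmP : p ∈ P ↔ (p ∈ P0 ∧ p ∉ E0) := by rw [hPdef, mem_sdiff]
    rw [hmP, hmE, hm0]
    by_cases c1 : v₀ < (p : ℝ) <;> by_cases c2 : Real.log p ≤ V0 <;> by_cases c3 : p ∈ F <;>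
      simp [c1, c2, c3]
  have hPy : ∀ p ∈ P, p ≤ y := by
    intro p hpP
    have h7 := hP0v' p (hPP0 hpP)
    have : (p : ℝ) ≤ y := le_trans (by exact_mod_cast h7) hvy
    exact_mod_cast this
  set R := (range (H + 1)).filter (fun k => ∀ p : ℕ, p.Prime → p ≤ y → p ∉ F →
    p ∉ P → ¬ p ∣ k) with hR
  -- size of R
  have hRsub : R ⊆ {0} ∪ (((Icc 1 H).filter (fun k => ∃ s ∈ F.filter (fun q : ℕ => V0 < Real.log q), s ∣ k)) ∪
      (((Icc 1 H).filter (fun k => ∃ q m : ℕ, q.Prime ∧ y < q ∧ k = q * m ∧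
        ∀ p : ℕ, p.Prime → p ∣ m → p ∈ F)) ∪
      (Finset.Icc 1 H).filter (fun m => ∀ p : ℕ, p.Prime → p ∣ m → Real.log p ≤ V0))) := by
    intro k hk
    rw [hR, mem_filter, mem_range] at hk
    obtain ⟨hkH, hk2⟩ := hk
    rw [mem_union, mem_singleton]
    by_cases hk0 : k = 0
    · exact Or.inl hk0
    right
    have hk1 : 1 ≤ k := by omega
    have hkI : k ∈ Icc 1 H := by rw [mem_Icc]; omega
    rw [mem_union, mem_union]
    by_cases hA1 : ∃ s ∈ F.filter (fun q : ℕ => V0 < Real.log q), s ∣ k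
    · exact Or.inl (mem_filter.2 ⟨hkI, hA1⟩)
    right
    push Not at hA1
    have hfac : ∀ q : ℕ, q.Prime → q ∣ k → (q ∈ F ∨ q ∈ P ∨ y < q) := by
      intro q hq hd
      by_contra hcon
      push Not at hcon
      exact hk2 q hq hcon.2.2 hcon.1 hcon.2.1 hd
    by_cases hB1 : ∃ q : ℕ, q.Prime ∧ q ∣ k ∧ y < q
    · left
      rw [mem_filter]
      refine ⟨hkI, ?_⟩
      obtain ⟨q, hq, ⟨m, rfl⟩, hyq⟩ := hB1
      have hm0 : m ≠ 0 := by rintro rfl; simp at hk0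
      have hmv : (m : ℝ) < v₀ := by
        have h7 : (q : ℝ) * m ≤ H := by exact_mod_cast (by omega : q * m ≤ H)
        have h8 : (0 : ℝ) < m := by exact_mod_cast Nat.pos_of_ne_zero hm0
        have h10 : (y : ℝ) < q := by exact_mod_cast hyq
        have h9 : (y : ℝ) * m < y * v₀ := by
          calc (y : ℝ) * m < q * m := by gcongr
            _ ≤ H := h7
            _ ≤ _ := hHy
        exact lt_of_mul_lt_mul_left h9 hy0.le
      refine ⟨q, m, hq, hyq, rfl, fun r hr hrd => ?_⟩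
      have hrm : (r : ℝ) ≤ m := by exact_mod_cast Nat.le_of_dvd (Nat.pos_of_ne_zero hm0) hrd
      rcases hfac r hr (hrd.mul_left q) with h | h | h
      · exact h
      · have := hP0v r (hPP0 h); linarith
      · have : (y : ℝ) < r := by exact_mod_cast h
        linarith
    · right
      push Not at hB1
      rw [mem_filter]
      refine ⟨hkI, fun q hq hd => ?_⟩
      rcases hfac q hq hd with h | h | h
      · by_contra hcon
        push Not at hcon
        exact hA1 q (mem_filter.2 ⟨h, hcon⟩) hd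
      · exact ((hPmem q hq).1 h).2.1
      · have := hB1 q hq hd; omega
  have hRcard : (R.card : ℝ) ≤ (C₁ + 2 + 10 * Real.exp (2 * C₀)) * H / Real.log y := by
    have e1 := mult_count (F.filter (fun q : ℕ => V0 < Real.log q))
      (fun q hq => (hF q (mem_filter.1 hq).1).pos) H
    have e2 := primeF_count F hF C₀ hFsum y H hy2
    have h7 : R.card ≤ 1 + (((Icc 1 H).filter (fun k => ∃ s ∈ F.filter (fun q : ℕ => V0 < Real.log q), s ∣ k)).card +
      (((Icc 1 H).filter (fun k => ∃ q m : ℕ, q.Prime ∧ y < q ∧ k = q * m ∧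
        ∀ p : ℕ, p.Prime → p ∣ m → p ∈ F)).card +
      ((Finset.Icc 1 H).filter (fun m => ∀ p : ℕ, p.Prime → p ∣ m → Real.log p ≤ V0)).card)) := by
      refine (card_le_card hRsub).trans ((card_union_le _ _).trans ?_)
      rw [card_singleton]
      apply Nat.add_le_add_left
      refine (card_union_le _ _).trans ?_
      apply Nat.add_le_add_left
      exact card_union_le _ _
    have h8 : (R.card : ℝ) ≤ 1 + ((((Icc 1 H).filter (fun k => ∃ s ∈ F.filter (fun q : ℕ => V0 < Real.log q), s ∣ k)).card : ℝ) +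
      ((((Icc 1 H).filter (fun k => ∃ q m : ℕ, q.Prime ∧ y < q ∧ k = q * m ∧
        ∀ p : ℕ, p.Prime → p ∣ m → p ∈ F)).card : ℝ) +
      (((Finset.Icc 1 H).filter (fun m => ∀ p : ℕ, p.Prime → p ∣ m → Real.log p ≤ V0)).card : ℝ))) := by
      exact_mod_cast h7
    have h9 : (H : ℝ) * ∑ q ∈ F.filter (fun q : ℕ => V0 < Real.log q), (1 : ℝ) / q ≤ C₁ * (H / Real.log y) := by
      calc (H : ℝ) * ∑ q ∈ F.filter (fun q : ℕ => V0 < Real.log q), (1 : ℝ) / q ≤ H * (C₁ / Real.log y) := by gcongr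
        _ = _ := by ring
    have h11 : (H : ℝ) / (Real.log y) ^ 3 ≤ H / Real.log y := by
      apply div_le_div_of_nonneg_left hH0.le hly
      nlinarith [sq_nonneg (Real.log y)]
    have h14 : (1 : ℝ) ≤ H / Real.log y := by
      rw [one_le_div hly]
      have := Real.log_le_sub_one_of_pos hy0
      linarith
    have h12 : (C₁ + 2 + 10 * Real.exp (2 * C₀)) * H / Real.log y = (C₁ + 2) * (H / Real.log y) +
      10 * Real.exp (2 * C₀) * H / Real.log y := by ring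
    linarith
  -- the product over P0
  have hPv : V v = V u * ∏ p ∈ P0, (1 - 1 / (p : ℝ)) := by
    have h7 : Pz v = Pz u ∪ P0 := by
      ext p
      rw [mem_union, mem_Pz, mem_Pz, hP0, mem_filter, mem_Icc, hu, Nat.le_floor_iff hv₀0.le]
      constructor
      · rintro ⟨hp, hpv⟩
        by_cases h : (p : ℝ) ≤ v₀
        · exact Or.inl ⟨hp, h⟩
        · exact Or.inr ⟨⟨hp.pos, hpv⟩, hp, not_le.1 h⟩
      · rintro (⟨hp, hpu⟩ | ⟨⟨_, hpv⟩, hp, _⟩)
        · refine ⟨hp, ?_⟩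
          have : p ≤ u := by rw [hu, Nat.le_floor_iff hv₀0.le]; exact hpu
          omega
        · exact ⟨hp, hpv⟩
    have h8 : Disjoint (Pz u) P0 := by
      rw [Finset.disjoint_left]
      intro p hp hpS
      have h9 := (mem_Pz.1 hp).2
      rw [hu, Nat.le_floor_iff hv₀0.le] at h9
      have := hP0v p hpS
      linarith
    unfold V
    rw [h7, prod_union h8]
  have hP0prod : ∏ p ∈ P0, (1 - 1 / (p : ℝ)) ≤ c₂ / c₁ * 40 * (τ ^ 2 / (Real.log y * Real.log τ)) := by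
    have h7 := (hV v (by omega)).2
    have h8 := (hV u hu2).1
    rw [hPv] at h7
    have hVu := V_pos u
    have h9 : c₁ * (∏ p ∈ P0, (1 - 1 / (p : ℝ))) * (V0 / 2) ≤ c₂ * (2 * τ) := by
      have hnn : 0 ≤ ∏ p ∈ P0, (1 - 1 / (p : ℝ)) :=
        Finset.prod_nonneg fun p hp => (one_sub_inv_pos (hP0p p hp).1).le
      calc c₁ * (∏ p ∈ P0, (1 - 1 / (p : ℝ))) * (V0 / 2)
          ≤ (V u * Real.log u) * (∏ p ∈ P0, (1 - 1 / (p : ℝ))) * Real.log v := by
            gcongr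
        _ = (V u * (∏ p ∈ P0, (1 - 1 / (p : ℝ))) * Real.log v) * Real.log u := by ring
        _ ≤ c₂ * Real.log u := by gcongr
        _ ≤ _ := by gcongr
    have hV0pos : 0 < V0 := by linarith
    have h10 : ∏ p ∈ P0, (1 - 1 / (p : ℝ)) ≤ c₂ * (2 * τ) / (c₁ * (V0 / 2)) := by
      rw [le_div_iff₀ (by positivity)]
      linarith
    refine h10.trans (le_of_eq ?_)
    rw [hV0]
    field_simp
    ring
  have hE0sum : ∑ p ∈ E0, 1 / (p : ℝ) ≤ C₀ := by
    refine le_trans ?_ hFsum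
    apply sum_le_sum_of_subset_of_nonneg
    · intro p hp
      rw [hE0, mem_filter] at hp
      exact hp.2
    · intro _ _ _; positivity
  have hPprod : ∏ p ∈ P, (1 - 1 / (p : ℝ)) ≤ (∏ p ∈ P0, (1 - 1 / (p : ℝ))) * Real.exp (2 * C₀) :=
    prod_drop' P0 E0 hP0p (filter_subset _ _) C₀ hE0sum
  have hPnn : 0 ≤ ∏ p ∈ P, (1 - 1 / (p : ℝ)) :=
    Finset.prod_nonneg fun p hp => (one_sub_inv_pos (hP0p p (hPP0 hp)).1).le
  have hGP : GP y F = P := by
    ext p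
    rw [mem_GP, mem_PQ]
    constructor
    · rintro ⟨⟨h7, h8, h9⟩, h10, h11⟩
      exact (hPmem p h8).2 ⟨h10, h11, h9⟩
    · intro hp
      have hpp := (hP0p p (hPP0 hp)).1
      obtain ⟨h7, h8, h9⟩ := (hPmem p hpp).1 hp
      exact ⟨⟨hPy p hp, hpp, h9⟩, h7, h8⟩
  have hRe : (range (H + 1)).filter (fun k => ∀ p ∈ PQ y F, p ∉ GP y F → ¬ p ∣ k) = R := by
    rw [hR, hGP]
    ext k
    rw [mem_filter, mem_filter]
    constructor
    · rintro ⟨h7, h8⟩
      exact ⟨h7, fun p hp hpy hpF hpP => h8 p (mem_PQ.2 ⟨hpy, hp, hpF⟩) hpP⟩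
    · rintro ⟨h7, h8⟩
      exact ⟨h7, fun p hp hpP => h8 p (mem_PQ.1 hp).2.1 (mem_PQ.1 hp).1 (mem_PQ.1 hp).2.2 hpP⟩
  rw [hRe, hGP]
  have hτ0 : 0 < τ ^ 2 / (Real.log y * Real.log τ) := by positivity
  calc (R.card : ℝ) * ∏ p ∈ P, (1 - 1 / (p : ℝ))
      ≤ ((C₁ + 2 + 10 * Real.exp (2 * C₀)) * H / Real.log y) *
          ((c₂ / c₁ * 40 * (τ ^ 2 / (Real.log y * Real.log τ))) * Real.exp (2 * C₀)) := by
        have h7 : ∏ p ∈ P, (1 - 1 / (p : ℝ)) ≤
            (c₂ / c₁ * 40 * (τ ^ 2 / (Real.log y * Real.log τ))) * Real.exp (2 * C₀) :=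
          hPprod.trans (by gcongr)
        gcongr
    _ = (C₁ + 2 + 10 * Real.exp (2 * C₀)) * (c₂ / c₁ * 40) * Real.exp (2 * C₀) * H * τ ^ 2 /
          ((Real.log y) ^ 2 * Real.log τ) := by
        field_simp
    _ ≤ 3 * ((C₁ + 2 + 10 * Real.exp (2 * C₀)) * (c₂ / c₁ * 40) * Real.exp (2 * C₀)) * H * τ ^ 2 /
          ((Real.log y) ^ 2 * Real.log τ) := by
        apply div_le_div_of_nonneg_right _ (by positivity)
        apply mul_le_mul_of_nonneg_right _ (by positivity)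
        apply mul_le_mul_of_nonneg_right _ hH0.le
        have : 0 ≤ (C₁ + 2 + 10 * Real.exp (2 * C₀)) * (c₂ / c₁ * 40) * Real.exp (2 * C₀) := by positivity
        linarith

/-- the two-sided window -/
theorem window (C₀ C₁ : ℝ) (hC₁ : 0 ≤ C₁) : ∃ C : ℝ, 0 < C ∧ ∃ y₀ : ℕ, ∀ y : ℕ, y₀ ≤ y → ∀ F : Finset ℕ,
    (∀ q ∈ F, q.Prime) → ∑ q ∈ F, (1 : ℝ) / q ≤ C₀ →
    ∑ q ∈ F.filter (fun q : ℕ => V0 y < Real.log q), (1 : ℝ) / q ≤ C₁ / Real.log y →
    ∀ H : ℕ, y ≤ H → (H : ℝ) ≤ y * (Real.log y) ^ 2 →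
    (((Icc (-(H : ℤ)) H).filter (fun k => ∀ p ∈ PQ y F, p ∉ GP y F → ¬ (p : ℤ) ∣ k)).card : ℝ) *
      ∏ p ∈ GP y F, (1 - 1 / (p : ℝ)) ≤
      C * H * (Real.log (Real.log y)) ^ 2 /
        ((Real.log y) ^ 2 * Real.log (Real.log (Real.log y))) := by
  obtain ⟨C, hC, y₀, h⟩ := window_half C₀ C₁ hC₁
  refine ⟨2 * C, by positivity, y₀, fun y hy F hF hFs hFt H hH1 hH2 => ?_⟩
  have h1 := h y hy F hF hFs hFt H hH1 hH2
  set R := (range (H + 1)).filter (fun k => ∀ p ∈ PQ y F, p ∉ GP y F → ¬ p ∣ k) with hR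
  have hcard : ((Icc (-(H : ℤ)) H).filter (fun k => ∀ p ∈ PQ y F, p ∉ GP y F → ¬ (p : ℤ) ∣ k)).card ≤
      2 * R.card := by
    have hsub : (Icc (-(H : ℤ)) H).filter (fun k => ∀ p ∈ PQ y F, p ∉ GP y F → ¬ (p : ℤ) ∣ k) ⊆
        R.image (fun k : ℕ => (k : ℤ)) ∪ R.image (fun k : ℕ => -(k : ℤ)) := by
      intro k hk
      rw [mem_filter, mem_Icc] at hk
      obtain ⟨⟨hk1, hk2⟩, hk3⟩ := hk
      have hm : k.natAbs ∈ R := by
        rw [hR, mem_filter, mem_range]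
        refine ⟨by omega, fun p hp hpG hd => hk3 p hp hpG ?_⟩
        exact Int.natCast_dvd.2 hd
      rw [mem_union, mem_image, mem_image]
      rcases le_total 0 k with h0 | h0
      · exact Or.inl ⟨k.natAbs, hm, by omega⟩
      · exact Or.inr ⟨k.natAbs, hm, by omega⟩
    refine (card_le_card hsub).trans ((card_union_le _ _).trans ?_)
    have e1 : (R.image (fun k : ℕ => (k : ℤ))).card ≤ R.card := card_image_le
    have e2 : (R.image (fun k : ℕ => -(k : ℤ))).card ≤ R.card := card_image_le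
    omega
  have hprod : 0 ≤ ∏ p ∈ GP y F, (1 - 1 / (p : ℝ)) :=
    prod_nonneg fun p hp => (one_sub_pos (mem_PQ.1 (mem_GP.1 hp).1).2.1).le
  have hcard' : (((Icc (-(H : ℤ)) H).filter (fun k => ∀ p ∈ PQ y F, p ∉ GP y F → ¬ (p : ℤ) ∣ k)).card : ℝ) ≤
      2 * R.card := by exact_mod_cast hcard
  calc (((Icc (-(H : ℤ)) H).filter (fun k => ∀ p ∈ PQ y F, p ∉ GP y F → ¬ (p : ℤ) ∣ k)).card : ℝ) *
      ∏ p ∈ GP y F, (1 - 1 / (p : ℝ))
      ≤ (2 * R.card) * ∏ p ∈ GP y F, (1 - 1 / (p : ℝ)) := mul_le_mul_of_nonneg_right hcard' hprod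
    _ = 2 * ((R.card : ℝ) * ∏ p ∈ GP y F, (1 - 1 / (p : ℝ))) := by ring
    _ ≤ 2 * (C * H * (Real.log (Real.log y)) ^ 2 /
        ((Real.log y) ^ 2 * Real.log (Real.log (Real.log y)))) := by linarith
    _ = _ := by ring

end Pool.Agent.H22.RC
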