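import Pool.Agent.H22.RC.Low
import Pool.Graph.R_pool_sql_team_seeded_b0a926ef.R529.LD.Fin

set_option autoImplicit false
set_option maxHeartbeats 4000000

/-! # The residue classes -/

namespace Pool.Agent.H22.RC

open Finset Filter Topology
open Pool.Agent.TH101.RG (V0)
open Pool.Agent.R529.BU (om om_cont om_ge om_le)
open Pool.Agent.H510R2.Maier (QQ QQ_pos QQ_real)
open Pool.Agent.R529.LD (small_gt)

open scoped Classical

/-- the product over the primes up to `y` outside `F` -/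
theorem PQ_prod (y : ℕ) (F : Finset ℕ) (η : ℝ) (hFs : ∑ q ∈ F, (1 : ℝ) / q ≤ η) :
    (1 - η) * ∏ p ∈ PQ y F, (1 - 1 / (p : ℝ)) ≤ QQ y := by
  set F' := (Icc 1 y).filter (fun p => p.Prime ∧ p ∈ F) with hF'
  have h1 : QQ y = (∏ p ∈ F', (1 - 1 / (p : ℝ))) * ∏ p ∈ PQ y F, (1 - 1 / (p : ℝ)) := by
    unfold QQ
    rw [← prod_union]
    · apply prod_congr _ (fun _ _ => rfl)
      ext p
      rw [mem_union, mem_PQ, hF', mem_filter, mem_filter, mem_Icc]
      constructor
      · rintro ⟨h1, h2⟩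
        by_cases hpF : p ∈ F
        · exact Or.inl ⟨h1, h2, hpF⟩
        · exact Or.inr ⟨h1.2, h2, hpF⟩
      · rintro (⟨h2, h4, h5⟩ | ⟨h3, h4, h5⟩)
        · exact ⟨h2, h4⟩
        · exact ⟨⟨h4.pos, h3⟩, h4⟩
    · rw [disjoint_left]
      intro p hp hp'
      exact (mem_PQ.1 hp').2.2 (mem_filter.1 hp).2.2
  have hP0 : 0 < ∏ p ∈ PQ y F, (1 - 1 / (p : ℝ)) := prod_pos fun p hp => one_sub_pos (mem_PQ.1 hp).2.1
  have h2 := Pool.Agent.H510R2.Maier.weier F' (fun p => 1 / (p : ℝ)) (fun i _ => by positivity) (fun i hi => by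
    have hi2 := (mem_filter.1 hi).2.1.one_lt.le
    have h2 : (1 : ℝ) ≤ i := by exact_mod_cast hi2
    rw [div_le_one (by linarith)]
    exact h2)
  have h3 : ∑ p ∈ F', (1 : ℝ) / p ≤ η := by
    refine le_trans ?_ hFs
    apply sum_le_sum_of_subset_of_nonneg
    · intro p hp; exact (mem_filter.1 hp).2.2
    · intro _ _ _; positivity
  rw [h1]
  apply mul_le_mul_of_nonneg_right _ hP0.le
  linarith

/-- growth -/
theorem ev_win (B x c : ℝ) (hB : 1 < B) (hx : 0 < x) (hc : 0 < c) : ∀ᶠ y : ℕ in atTop,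
    c * (y * (Real.log y) ^ 2 * Real.log (Real.log (Real.log y)) / (Real.log (Real.log y)) ^ 2) ≤
      y * (Real.log y) ^ 2 ∧
    (y : ℝ) * (Real.log y) ^ 2 * Real.log y ≤ x * (y : ℝ) ^ B ∧ (y : ℝ) * (Real.log y) ^ 2 ≤ (y : ℝ) ^ B ∧
    y + 1 ≤ (y : ℝ) ^ B := by
  have t1 : Tendsto (fun y : ℕ => Real.log (y : ℝ)) atTop atTop :=
    Real.tendsto_log_atTop.comp tendsto_natCast_atTop_atTop
  have t2 : Tendsto (fun y : ℕ => Real.log (Real.log y)) atTop atTop := Real.tendsto_log_atTop.comp t1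
  have h1 : ∀ᶠ t : ℝ in atTop, c * Real.log t ≤ t ^ 2 := by
    have := Real.isLittleO_log_id_atTop.def (show (0 : ℝ) < 1 / c by positivity)
    filter_upwards [this, eventually_ge_atTop 1] with t h2 h3
    rw [Real.norm_of_nonneg (Real.log_nonneg h3), id, Real.norm_of_nonneg (by linarith)] at h2
    calc c * Real.log t ≤ c * (1 / c * t) := by gcongr
      _ = t := by field_simp
      _ ≤ t ^ 2 := by nlinarith
  have h2 : ∀ᶠ t : ℝ in atTop, t ^ 3 ≤ min x 1 * Real.exp ((B - 1) * t) / 2 := by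
    have := (isLittleO_pow_exp_pos_mul_atTop (k := 3) (show (0 : ℝ) < B - 1 by linarith)).def
      (show (0 : ℝ) < min x 1 / 2 by positivity)
    filter_upwards [this, eventually_ge_atTop 1] with t h2 h3
    rw [Real.norm_of_nonneg (by positivity), Real.norm_of_nonneg (Real.exp_pos _).le] at h2
    linarith
  filter_upwards [t2.eventually h1, t1.eventually h2, t1.eventually_ge_atTop 1, t2.eventually_ge_atTop 1,
    eventually_ge_atTop 3] with y g1 g2 g3 g4 g5
  have hy0 : (0 : ℝ) < y := by exact_mod_cast (by omega : 0 < y)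
  have hy3 : (3 : ℝ) ≤ y := by exact_mod_cast g5
  have e1 : (y : ℝ) ^ B = y * Real.exp ((B - 1) * Real.log y) := by
    rw [show (B : ℝ) = 1 + (B - 1) by ring, Real.rpow_add hy0, Real.rpow_one]
    congr 1
    rw [Real.rpow_def_of_pos hy0]
    congr 1
    ring
  have m1 := min_le_left x 1
  have m2 := min_le_right x 1
  have he := Real.exp_pos ((B - 1) * Real.log y)
  have hm0 : 0 < min x 1 := lt_min hx one_pos
  have g6 : (Real.log y) ^ 3 ≤ x * Real.exp ((B - 1) * Real.log y) := by nlinarith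
  have g7 : (Real.log y) ^ 3 ≤ Real.exp ((B - 1) * Real.log y) / 2 := by nlinarith
  have g8 : (1 : ℝ) ≤ (Real.log y) ^ 3 := one_le_pow₀ g3
  have g9 : (Real.log y) ^ 2 ≤ (Real.log y) ^ 3 := pow_le_pow_right₀ g3 (by norm_num)
  refine ⟨?_, ?_, ?_, ?_⟩
  · calc c * (y * (Real.log y) ^ 2 * Real.log (Real.log (Real.log y)) / (Real.log (Real.log y)) ^ 2)
        = y * (Real.log y) ^ 2 * (c * Real.log (Real.log (Real.log y)) / (Real.log (Real.log y)) ^ 2) := by ring
      _ ≤ y * (Real.log y) ^ 2 * 1 := by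
          apply mul_le_mul_of_nonneg_left _ (by positivity)
          rw [div_le_one (by positivity)]
          exact g1
      _ = _ := mul_one _
  · rw [e1]
    calc (y : ℝ) * (Real.log y) ^ 2 * Real.log y = y * (Real.log y) ^ 3 := by ring
      _ ≤ y * (x * Real.exp ((B - 1) * Real.log y)) := by gcongr
      _ = _ := by ring
  · rw [e1]
    apply mul_le_mul_of_nonneg_left _ hy0.le
    linarith
  · rw [e1]
    nlinarith

theorem classes (B κ T C₁ : ℝ) (hB : 1 < B) (hκ : κ < Real.exp Real.eulerMascheroniConstant * om B) (hT : 0 < T)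
    (hC₁ : 0 ≤ C₁) :
    ∃ η c τ : ℝ, 0 < η ∧ 0 < c ∧ 0 < τ ∧ ∀ᶠ y : ℕ in atTop, ∀ F : Finset ℕ, (∀ q ∈ F, q.Prime) →
      ∑ q ∈ F, (1 : ℝ) / q ≤ η →
      ∑ q ∈ F.filter (fun q : ℕ => V0 y < Real.log q), (1 : ℝ) / q ≤ C₁ / Real.log y →
      ∀ H K : ℕ, (y : ℝ) ^ B ≤ H → (H : ℝ) ≤ (y : ℝ) ^ (B + τ) → y ≤ K →
      (K : ℝ) ≤ c * (y * (Real.log y) ^ 2 * Real.log (Real.log (Real.log y)) / (Real.log (Real.log y)) ^ 2) →
      ∃ b : ℕ → ℤ, K ≤ H ∧
        (((Icc (-(K : ℤ)) K).filter (fun j => ∀ p ∈ PQ y F, ¬ (p : ℤ) ∣ j - b p)).card : ℝ) ≤ T * y ∧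
        κ * H * ∏ p ∈ PQ y F, (1 - 1 / (p : ℝ)) ≤
          (((Ioc (K : ℤ) H).filter (fun j => ∀ p ∈ PQ y F, ¬ (p : ℤ) ∣ j - b p)).card : ℝ) := by
  set E := Real.exp Real.eulerMascheroniConstant with hE
  have hE0 : 0 < E := Real.exp_pos _
  have hom := om_ge B hB.le
  have hEo : 0 < E * om B := by
    have : 0 < om B := by linarith
    positivity
  set κ₀ : ℝ := max κ (E * om B / 2) with hκ₀
  have hκ₀0 : 0 < κ₀ := lt_of_lt_of_le (by positivity) (le_max_right _ _)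
  have hκ₀1 : κ₀ < E * om B := max_lt hκ (by linarith)
  set κ₁ : ℝ := (κ₀ + E * om B) / 2 with hκ₁
  have hκ₁0 : κ₀ < κ₁ := by rw [hκ₁]; linarith
  have hκ₁1 : κ₁ < E * om B := by rw [hκ₁]; linarith
  obtain ⟨x, hx0, hx1, hx2⟩ := small_gt (fun x => (om B - 2 * x) * (1 - x) - κ₁ * (E⁻¹ + x)) (by fun_prop) 0
    (1 / 2) (by norm_num) (by
      simp only [mul_zero, sub_zero, add_zero, mul_one]
      rw [sub_pos, ← div_eq_mul_inv, div_lt_iff₀ hE0]
      linarith)
  obtain ⟨Cw, hCw, yw, hwin⟩ := window 1 C₁ hC₁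
  obtain ⟨Cu, hCu, yu, hup⟩ := upper_sieve
  obtain ⟨τ, hτ0, hlow⟩ := rough_lower B hB x hx0
  set c : ℝ := T * (κ₁ - κ₀) / (Cw * (Cu + (κ₁ - κ₀))) with hc
  have hκd : 0 < κ₁ - κ₀ := by linarith
  have hc0 : 0 < c := by positivity
  have hQlim : ∀ᶠ y : ℕ in atTop, QQ y * Real.log y ≤ E⁻¹ + x := by
    have h1 := QQ_real.comp (tendsto_natCast_atTop_atTop (R := ℝ))
    have h2 := (h1.inv₀ hE0.ne').eventually_lt_const (show E⁻¹ < E⁻¹ + x by linarith)
    filter_upwards [h2, eventually_ge_atTop 3] with y h3 h4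
    simp only [Function.comp, Nat.floor_natCast] at h3
    have hly : 0 < Real.log y := Real.log_pos (by exact_mod_cast (by omega : 1 < y))
    rw [inv_div, div_inv_eq_mul] at h3
    linarith
  refine ⟨x, c, τ, hx0, hc0, hτ0, ?_⟩
  filter_upwards [hlow, ev_win B x c hB hx0 hc0, hQlim, eventually_ge_atTop yw, eventually_ge_atTop yu,
    eventually_ge_atTop 3,
    (Real.tendsto_log_atTop.comp (Real.tendsto_log_atTop.comp tendsto_natCast_atTop_atTop)).eventually_ge_atTop (2 : ℝ)]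
    with y g1 g2 g3 g4 g5 g6 g7 F hF hFs hFt H K hH1 hH2 hK1 hK2
  simp only [Function.comp] at g7
  obtain ⟨w1, w2, w3, w4⟩ := g2
  have hy0 : (0 : ℝ) < y := by exact_mod_cast (by omega : 0 < y)
  have hly : 0 < Real.log y := Real.log_pos (by exact_mod_cast (by omega : 1 < y))
  have hlly : 0 < Real.log (Real.log y) := by linarith
  have hllly : 0 < Real.log (Real.log (Real.log y)) := Real.log_pos (by linarith)
  have hH0 : (0 : ℝ) < H := lt_of_lt_of_le (by positivity) hH1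
  have hKH' : (K : ℝ) ≤ H := hK2.trans (w1.trans (w3.trans hH1))
  have hKH : K ≤ H := by exact_mod_cast hKH'
  have hyH : y + 1 ≤ H := by
    have : (y : ℝ) + 1 ≤ H := w4.trans hH1
    exact_mod_cast this
  set Q := PQ y F with hQ
  set P := GP y F with hP
  have hPQ : P ⊆ Q := fun p hp => (mem_GP.1 hp).1
  have hPp : ∀ p ∈ P, p.Prime := fun p hp => (mem_PQ.1 (hPQ hp)).2.1
  set Qp := ∏ p ∈ P, (1 - 1 / (p : ℝ)) with hQp
  have hQp0 : 0 < Qp := prod_pos fun p hp => one_sub_pos (hPp p hp)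
  set W := ∏ p ∈ Q, (1 - 1 / (p : ℝ)) with hW
  have hW0 : 0 < W := prod_pos fun p hp => one_sub_pos (mem_PQ.1 hp).2.1
  -- the window
  have hw := hwin y g4 F hF (hFs.trans (by linarith)) hFt K hK1 (hK2.trans w1)
  set R := (Icc (-(K : ℤ)) K).filter (fun k => ∀ p ∈ Q, p ∉ P → ¬ (p : ℤ) ∣ k) with hR
  have hw2 : (R.card : ℝ) * Qp ≤ Cw * c * y := by
    refine hw.trans ?_
    calc Cw * K * (Real.log (Real.log y)) ^ 2 / ((Real.log y) ^ 2 * Real.log (Real.log (Real.log y)))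
        ≤ Cw * (c * (y * (Real.log y) ^ 2 * Real.log (Real.log (Real.log y)) / (Real.log (Real.log y)) ^ 2)) *
          (Real.log (Real.log y)) ^ 2 / ((Real.log y) ^ 2 * Real.log (Real.log (Real.log y))) := by gcongr
      _ = _ := by field_simp
  -- the long interval
  set J₀ := (Ioc (K : ℤ) H).filter (fun k => ∀ p ∈ Q, p ∉ P → ¬ (p : ℤ) ∣ k) with hJ₀
  have hlow1 := g1 F H hH1 hH2
  set JH := (Icc 1 H).filter (fun j => ∀ p ∈ Q, p ∉ P → ¬ p ∣ j) with hJH
  have hJHJ : (JH.card : ℝ) ≤ K + J₀.card := by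
    have h1 : JH ⊆ Icc 1 K ∪ J₀.image Int.toNat := by
      intro j hj
      rw [hJH, mem_filter, mem_Icc] at hj
      rw [mem_union, mem_Icc, mem_image]
      by_cases hjK : j ≤ K
      · exact Or.inl ⟨hj.1.1, hjK⟩
      · right
        refine ⟨(j : ℤ), ?_, Int.toNat_natCast j⟩
        rw [hJ₀, mem_filter, mem_Ioc]
        refine ⟨⟨by exact_mod_cast (by omega : K < j), by exact_mod_cast hj.1.2⟩, fun p hp hpP hd => ?_⟩
        exact hj.2 p hp hpP (by exact_mod_cast hd)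
    have h2 : JH.card ≤ K + J₀.card := by
      refine (card_le_card h1).trans ((card_union_le _ _).trans ?_)
      rw [Nat.card_Icc, Nat.add_sub_cancel]
      exact Nat.add_le_add_left card_image_le _
    exact_mod_cast h2
  have hQp1 : Qp ≤ 1 := prod_le_one (fun p hp => (one_sub_pos (hPp p hp)).le) (fun p hp => by
    have : (0 : ℝ) ≤ 1 / (p : ℝ) := by positivity
    linarith)
  have hKs : (K : ℝ) ≤ x * (H / Real.log y) := by
    have h1 : (K : ℝ) * Real.log y ≤ x * H := by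
      calc (K : ℝ) * Real.log y ≤ (y * (Real.log y) ^ 2) * Real.log y := by
            apply mul_le_mul_of_nonneg_right (hK2.trans w1) hly.le
        _ ≤ x * (y : ℝ) ^ B := w2
        _ ≤ x * H := by gcongr
    rw [← mul_div_assoc, le_div_iff₀ hly]
    exact h1
  have hmu : κ₁ * (H * W) ≤ (J₀.card : ℝ) * Qp := by
    have h1 : (om B - 2 * x) * (H / Real.log y) ≤ (J₀.card : ℝ) * Qp := by
      have h2 : (JH.card : ℝ) * Qp ≤ K + (J₀.card : ℝ) * Qp := by
        have h3 : (K : ℝ) * Qp ≤ K := mul_le_of_le_one_right (Nat.cast_nonneg _) hQp1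
        have h4 := mul_le_mul_of_nonneg_right hJHJ hQp0.le
        linarith
      linarith
    refine le_trans ?_ h1
    have h2 := PQ_prod y F x hFs
    rw [← hQ, ← hW] at h2
    have h3 : (1 - x) * (W * Real.log y) ≤ E⁻¹ + x := by
      calc (1 - x) * (W * Real.log y) = ((1 - x) * W) * Real.log y := by ring
        _ ≤ QQ y * Real.log y := mul_le_mul_of_nonneg_right h2 hly.le
        _ ≤ _ := g3
    have h4 : κ₁ * (W * Real.log y) ≤ om B - 2 * x := by
      have h5 : κ₁ * ((1 - x) * (W * Real.log y)) ≤ κ₁ * (E⁻¹ + x) :=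
        mul_le_mul_of_nonneg_left h3 (by linarith)
      have h6 : (κ₁ * (W * Real.log y)) * (1 - x) ≤ (om B - 2 * x) * (1 - x) := by
        calc (κ₁ * (W * Real.log y)) * (1 - x) = κ₁ * ((1 - x) * (W * Real.log y)) := by ring
          _ ≤ _ := by linarith
      exact le_of_mul_le_mul_right h6 (by linarith)
    rw [← mul_div_assoc, le_div_iff₀ hly]
    calc κ₁ * (H * W) * Real.log y = (κ₁ * (W * Real.log y)) * H := by ring
      _ ≤ _ := by gcongr
  -- the weights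
  set h := (H : ℝ) * W with hh
  have hh0 : 0 < h := by positivity
  set lam : ℝ := (κ₁ - κ₀) * h / (Cw * c * y) with hlam
  have hlam0 : 0 < lam := by positivity
  set f : ℤ → ℝ := fun j => if (K : ℤ) < j then 1 else -lam with hf
  obtain ⟨b₀, hb₀⟩ := avg_classes P hPp (R ∪ J₀) f
  have hdisj : Disjoint R J₀ := by
    rw [disjoint_left]
    intro j h1 h2
    rw [hR, mem_filter, mem_Icc] at h1
    rw [hJ₀, mem_filter, mem_Ioc] at h2
    omega
  have hsum : ∀ A₁ A₂ : Finset ℤ, A₁ ⊆ R → A₂ ⊆ J₀ → ∑ j ∈ A₁ ∪ A₂, f j = A₂.card - lam * A₁.card := by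
    intro A₁ A₂ h1 h2
    rw [sum_union (disjoint_of_subset_left h1 (disjoint_of_subset_right h2 hdisj))]
    have e1 : ∑ j ∈ A₁, f j = ∑ j ∈ A₁, (-lam) := by
      apply sum_congr rfl
      intro j hj
      have := h1 hj
      rw [hR, mem_filter, mem_Icc] at this
      simp only [hf]
      rw [if_neg (by omega)]
    have e2 : ∑ j ∈ A₂, f j = ∑ j ∈ A₂, (1 : ℝ) := by
      apply sum_congr rfl
      intro j hj
      have := h2 hj
      rw [hJ₀, mem_filter, mem_Ioc] at this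
      simp only [hf]
      rw [if_pos (by omega)]
    rw [e1, e2, sum_const, sum_const, nsmul_eq_mul, nsmul_eq_mul]
    ring
  rw [filter_union, hsum R J₀ subset_rfl subset_rfl,
    hsum _ _ (filter_subset _ _) (filter_subset _ _)] at hb₀
  set b : ℕ → ℤ := fun p => if p ∈ P then b₀ p else 0 with hb
  have hfilt : ∀ I : Finset ℤ, (I.filter (fun k => ∀ p ∈ Q, p ∉ P → ¬ (p : ℤ) ∣ k)).filter
      (fun j => ∀ p ∈ P, ¬ (p : ℤ) ∣ j - b₀ p) = I.filter (fun j => ∀ p ∈ Q, ¬ (p : ℤ) ∣ j - b p) := by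
    intro I
    ext j
    rw [mem_filter, mem_filter, mem_filter]
    constructor
    · rintro ⟨⟨h1, h2⟩, h3⟩
      refine ⟨h1, fun p hp => ?_⟩
      simp only [hb]
      by_cases hpP : p ∈ P
      · rw [if_pos hpP]; exact h3 p hpP
      · rw [if_neg hpP, sub_zero]; exact h2 p hp hpP
    · rintro ⟨h1, h2⟩
      simp only [hb] at h2
      refine ⟨⟨h1, fun p hp hpP => ?_⟩, fun p hpP => ?_⟩
      · have := h2 p hp
        rwa [if_neg hpP, sub_zero] at this
      · have := h2 p (hPQ hpP)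
        rwa [if_pos hpP] at this
  rw [hR, hJ₀, hfilt, hfilt] at hb₀
  rw [← hR, ← hJ₀] at hb₀
  set Nw := ((Icc (-(K : ℤ)) K).filter (fun j => ∀ p ∈ Q, ¬ (p : ℤ) ∣ j - b p)).card with hNw
  set Ns := ((Ioc (K : ℤ) H).filter (fun j => ∀ p ∈ Q, ¬ (p : ℤ) ∣ j - b p)).card with hNs
  have hNs1 : (Ns : ℝ) ≤ Cu * h := by
    have h1 := hup y g5 F H hyH b
    refine le_trans ?_ (h1.trans (le_of_eq (by rw [hh]; ring)))
    apply Nat.cast_le.2
    apply card_le_card
    intro j hj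
    rw [mem_filter, mem_Ioc] at hj
    rw [mem_filter, mem_Icc]
    exact ⟨⟨by omega, hj.1.2⟩, hj.2⟩
  have hlw : lam * (Cw * c * y) = (κ₁ - κ₀) * h := by rw [hlam]; field_simp
  have h1 : Qp * (J₀.card - lam * R.card) = (J₀.card : ℝ) * Qp - lam * (R.card * Qp) := by ring
  rw [h1] at hb₀
  have h2 : lam * ((R.card : ℝ) * Qp) ≤ (κ₁ - κ₀) * h := by
    rw [← hlw]
    exact mul_le_mul_of_nonneg_left hw2 hlam0.le
  have h3 : κ₀ * h ≤ Ns - lam * Nw := by linarith
  refine ⟨b, hKH, ?_, ?_⟩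
  · have h4 : lam * Nw ≤ Cu * h - κ₀ * h := by linarith
    have h5 : lam * Nw ≤ (Cu + (κ₁ - κ₀)) * h := by
      have : 0 < κ₀ * h := by positivity
      have : 0 < (κ₁ - κ₀) * h := by positivity
      linarith
    have h6 : (Nw : ℝ) ≤ (Cu + (κ₁ - κ₀)) * h / lam := by
      rw [le_div_iff₀ hlam0]; linarith
    refine h6.trans (le_of_eq ?_)
    rw [hlam, hc]
    field_simp
  · have h4 : 0 ≤ lam * Nw := by positivity
    calc κ * H * W ≤ κ₀ * H * W := by
          have : κ ≤ κ₀ := le_max_left _ _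
          gcongr
      _ = κ₀ * h := by rw [hh]; ring
      _ ≤ Ns := by linarith

end Pool.Agent.H22.RC
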