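import Pool.Graph.R_seed8.TH101.RG.Good
import Pool.Graph.R_seed8.H510R2.Maier.MA1

set_option autoImplicit false
set_option maxHeartbeats 4000000

/-! # A centre with many primes behind it -/

namespace Pool.Agent.H22.RC

open Finset Filter
open Pool.Agent.H378R2
open Pool.Agent.H312R2.RG (LPhi_nonneg' MPhi_nonneg')
open Pool.Agent.H510R2.Maier (lphi_mphi)

open scoped Classical

theorem two_lt_half (X : ℝ) (hX : 4 < X) : (2 : ℝ) < X ^ (1 / 2 : ℝ) := by
  calc (2 : ℝ) = (4 : ℝ) ^ (1 / 2 : ℝ) := by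
        rw [show (4 : ℝ) = 2 ^ (2 : ℝ) by norm_num, ← Real.rpow_mul (by norm_num)]
        norm_num
    _ < X ^ (1 / 2 : ℝ) := Real.rpow_lt_rpow (by norm_num) hX (by norm_num)

theorem two_le_half (X : ℝ) (hX : 4 < X) : (2 : ℝ) ≤ X ^ (1 / 2 : ℝ) := (two_lt_half X hX).le

/-- the weight is Lipschitz in the logarithm -/
theorem Phi_lip (X : ℝ) (hX : 0 < X) (n j : ℕ) (hn : 0 < n) :
    Phi (((n + j : ℕ) : ℝ) / X) ≤ Phi ((n : ℝ) / X) + (j : ℝ) / n := by
  have hn0 : (0 : ℝ) < n := by exact_mod_cast hn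
  have hj0 : (0 : ℝ) ≤ j := Nat.cast_nonneg j
  unfold Phi
  have h1 : Real.log (((n + j : ℕ) : ℝ) / X) ≤ Real.log ((n : ℝ) / X) + (j : ℝ) / n := by
    have h2 : ((n + j : ℕ) : ℝ) / X = ((n : ℝ) / X) * (1 + (j : ℝ) / n) := by
      push_cast; field_simp
    rw [h2, Real.log_mul (by positivity) (by positivity)]
    have h3 := Real.log_le_sub_one_of_pos (show 0 < 1 + (j : ℝ) / n by positivity)
    linarith
  have h2 : Real.log ((n : ℝ) / X) ≤ Real.log (((n + j : ℕ) : ℝ) / X) := by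
    apply Real.log_le_log (by positivity)
    apply div_le_div_of_nonneg_right _ hX.le
    push_cast; linarith
  have h3 : 0 ≤ (j : ℝ) / n := by positivity
  set a := Real.log (((n + j : ℕ) : ℝ) / X)
  set b := Real.log ((n : ℝ) / X)
  apply max_le
  · have := le_max_left 0 (1 / 2 - |b - 1 / 2|)
    linarith
  · have h4 := le_max_right 0 (1 / 2 - |b - 1 / 2|)
    have h5 : |b - 1 / 2| ≤ |a - 1 / 2| + (j : ℝ) / n := by
      have h6 : b - 1 / 2 = (a - 1 / 2) + (b - a) := by ring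
      rw [h6]
      refine (abs_add_le _ _).trans ?_
      have : |b - a| ≤ (j : ℝ) / n := by
        rw [abs_le]; constructor <;> linarith
      linarith
    linarith

/-- growth -/
theorem ev_rich (ε : ℝ) (hε : 0 < ε) : ∀ᶠ X : ℝ in atTop, ∀ W : ℝ, 0 ≤ W → W ≤ Real.exp (Real.log X / 700) →
      W * (100 * Real.log X) * X ^ (93 / 100 : ℝ) ≤ ε * X := by
  have h := isLittleO_pow_exp_pos_mul_atTop (k := 1) (show (0 : ℝ) < 1 / 20 by norm_num)
  have h1 : ∀ᶠ L : ℝ in atTop, 100 * L ≤ ε * Real.exp (1 / 20 * L) := by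
    filter_upwards [h.def (show (0 : ℝ) < ε / 100 by positivity), eventually_ge_atTop 1] with L hL hL1
    rw [pow_one, Real.norm_of_nonneg (by linarith), Real.norm_of_nonneg (Real.exp_pos _).le] at hL
    linarith
  filter_upwards [Real.tendsto_log_atTop.eventually h1, Real.tendsto_log_atTop.eventually_ge_atTop 1000,
    eventually_gt_atTop 0] with X h2 h3 h4
  intro W hW0 hW
  have h5 : X ^ (93 / 100 : ℝ) = Real.exp (93 / 100 * Real.log X) := by
    rw [Real.rpow_def_of_pos h4]; congr 1; ring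
  rw [h5]
  calc W * (100 * Real.log X) * Real.exp (93 / 100 * Real.log X) ≤
      Real.exp (Real.log X / 700) * (ε * Real.exp (1 / 20 * Real.log X)) * Real.exp (93 / 100 * Real.log X) := by
        gcongr
    _ = ε * Real.exp (Real.log X / 700 + 1 / 20 * Real.log X + 93 / 100 * Real.log X) := by
        rw [Real.exp_add, Real.exp_add]; ring
    _ ≤ ε * Real.exp (Real.log X) := by
        apply mul_le_mul_of_nonneg_left _ hε.le
        exact Real.exp_le_exp.2 (by linarith)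
    _ = ε * X := by rw [Real.exp_log h4]

/-- the sum over the shifted class -/
theorem shift_sum (X : ℝ) (hX : 4 ≤ X) (W r j : ℕ) (hj : (j : ℝ) < X) (V : ℤ → ℝ) (hV : ∀ a, 0 ≤ V a) :
    ∑ n ∈ (Icc 1 ⌊3 * X⌋₊).filter (fun n => n ≡ r + j [MOD W]),
        Phi (n / X) * ArithmeticFunction.vonMangoldt n * V ((n : ℤ) - j) ≤
      ∑ n ∈ (Icc 1 ⌊3 * X⌋₊).filter (fun n => n ≡ r [MOD W]),
        Phi (((n + j : ℕ) : ℝ) / X) * ArithmeticFunction.vonMangoldt (n + j) * V (n : ℤ) := by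
  have hX0 : 0 < X := by linarith
  set I := (Icc 1 ⌊3 * X⌋₊).filter (fun n => n ≡ r [MOD W]) with hI
  set I' := (Icc 1 ⌊3 * X⌋₊).filter (fun n => n ≡ r + j [MOD W]) with hI'
  set f : ℕ → ℝ := fun m => Phi (m / X) * ArithmeticFunction.vonMangoldt m * V ((m : ℤ) - j) with hf
  have hf0 : ∀ m, 0 ≤ f m := fun m =>
    mul_nonneg (mul_nonneg (Phi_nonneg _) ArithmeticFunction.vonMangoldt_nonneg) (hV _)
  have h1 : ∑ n ∈ I, Phi (((n + j : ℕ) : ℝ) / X) * ArithmeticFunction.vonMangoldt (n + j) * V (n : ℤ) =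
      ∑ m ∈ I.image (fun n => n + j), f m := by
    rw [sum_image]
    · apply sum_congr rfl
      intro n _
      simp only [hf]
      congr 2
      push_cast; ring
    · intro a _ b _ hab
      exact Nat.add_right_cancel hab
  rw [h1]
  have h2 : ∑ m ∈ I', f m = ∑ m ∈ I'.filter (fun m => f m ≠ 0), f m := by
    rw [sum_filter_ne_zero]
  show ∑ m ∈ I', f m ≤ _
  rw [h2]
  apply sum_le_sum_of_subset_of_nonneg
  · intro m hm
    rw [mem_filter, hI', mem_filter, mem_Icc] at hm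
    obtain ⟨⟨⟨hm1, hm2⟩, hm3⟩, hm4⟩ := hm
    have hmX : X < m := by
      by_contra hcon
      apply hm4
      simp only [hf]
      rw [Phi_eq_zero_of_le (by positivity) ((div_le_one hX0).2 (not_lt.1 hcon))]
      ring
    have hjm : j < m := by
      have : (j : ℝ) < m := by linarith
      exact_mod_cast this
    rw [mem_image]
    refine ⟨m - j, ?_, by omega⟩
    rw [hI, mem_filter, mem_Icc]
    refine ⟨⟨by omega, by omega⟩, ?_⟩
    have h3 : (m - j) + j ≡ r + j [MOD W] := by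
      rw [Nat.sub_add_cancel hjm.le]; exact hm3
    exact Nat.ModEq.add_right_cancel' j h3
  · intro m _ _
    exact hf0 m

theorem exists_rich (κ κ' : ℝ) (hκ : 0 < κ) (hκκ : κ < κ') : ∀ᶠ X : ℝ in atTop, ∀ (W r H : ℕ) (J : Finset ℕ),
    0 < W → (W : ℝ) ≤ Real.exp (Real.log X / 700) → J ⊆ Icc 1 H → 1 ≤ H → (H : ℝ) ≤ X ^ (1 / 100 : ℝ) →
    κ' * H * ((W.totient : ℝ) / W) ≤ J.card →
    ∀ (V T : ℤ → ℝ) (Z₁ M M' M₂ : ℝ), (∀ a, 0 ≤ V a ∧ V a ≤ X ^ (1 / 100 : ℝ)) → (∀ a, 0 ≤ T a) →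
    1 ≤ Z₁ → 3 / 4 * Z₁ ≤ M → M ≤ Z₁ → (1 - 1 / Real.log X) * M ≤ M' → 0 ≤ M₂ → M₂ ≤ Z₁ / (Real.log X) ^ 3 →
    |∑ n ∈ (Icc 1 ⌊3 * X⌋₊).filter (fun n => n ≡ r [MOD W]), Phi (n / X) * V (n : ℤ) -
      M * (MPhi X * (1 / (W : ℝ)))| ≤ Z₁ * (X / ((W : ℝ) * (Real.log X) ^ 3)) →
    |∑ n ∈ (Icc 1 ⌊3 * X⌋₊).filter (fun n => n ≡ r [MOD W]), Phi (n / X) * (V (n : ℤ) * T (n : ℤ)) -
      M₂ * (MPhi X * (1 / (W : ℝ)))| ≤ Z₁ * (X / ((W : ℝ) * (Real.log X) ^ 3)) →
    (∀ j ∈ J, |∑ n ∈ (Icc 1 ⌊3 * X⌋₊).filter (fun n => n ≡ r + j [MOD W]),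
        Phi (n / X) * ArithmeticFunction.vonMangoldt n * V ((n : ℤ) - j) -
      M' * (LPhi X * (1 / (W.totient : ℝ)))| ≤ Z₁ * (X / ((W : ℝ) * (Real.log X) ^ 3))) →
    ∀ bad : Finset ℕ, (bad.card : ℝ) ≤ X ^ (9 / 10 : ℝ) →
    ∃ n : ℕ, X < n ∧ (n : ℝ) ≤ 3 * X ∧ n ∉ bad ∧ n ≡ r [MOD W] ∧ T (n : ℤ) < 1 ∧
      κ * H / Real.log X ≤ ((J.filter (fun j => (n + j).Prime)).card : ℝ) := by
  have hκ'0 : 0 < κ' := hκ.trans hκκ
  set δ : ℝ := (κ' - κ) * (3 / 80) with hδ
  have hδ0 : 0 < δ := by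
    have : 0 < κ' - κ := by linarith
    positivity
  filter_upwards [ev_rich (δ / 8) (by positivity), lphi_mphi (δ / (8 * κ')) (by positivity),
    eventually_ge_atTop 40, Real.tendsto_log_atTop.eventually_ge_atTop (max 1000 (16 * (2 * κ' + 6 * κ + 7) / δ))]
    with X hg hLM hX40 hLbig
  intro W r H J hW hWle hJH hH1 hHX hJc V T Z₁ M M' M₂ hV hT hZ hM hMZ hM' hM20 hM2 h1 h2 h3 bad hbad
  by_contra hcon
  push Not at hcon
  have hX0 : 0 < X := by linarith
  set L := Real.log X with hLdef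
  have hL : 1000 ≤ L := (le_max_left _ _).trans hLbig
  have hLδ : 16 * (2 * κ' + 6 * κ + 7) / δ ≤ L := (le_max_right _ _).trans hLbig
  have hL0 : 0 < L := by linarith
  have hWr : (0 : ℝ) < W := by exact_mod_cast hW
  have hφ : (0 : ℝ) < W.totient := by exact_mod_cast Nat.totient_pos.2 hW
  have hlog3 : Real.log (3 * X) ≤ 2 * L := by
    rw [Real.log_mul (by norm_num) hX0.ne']
    have : Real.log 3 ≤ Real.log X := Real.log_le_log (by norm_num) (by linarith)
    linarith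
  have hlog3' : Real.log (3 * X) ≤ L + 2 := by
    rw [Real.log_mul (by norm_num) hX0.ne']
    have h4 : Real.log 3 ≤ 2 := by
      have := Real.log_le_sub_one_of_pos (show (0 : ℝ) < 3 by norm_num)
      linarith
    linarith
  have hlog30 : 0 ≤ Real.log (3 * X) := Real.log_nonneg (by linarith)
  set I := (Icc 1 ⌊3 * X⌋₊).filter (fun n => n ≡ r [MOD W]) with hI
  set x1 := X ^ (1 / 100 : ℝ) with hx1
  have hx10 : 0 < x1 := by positivity
  have hHr : (1 : ℝ) ≤ H := by exact_mod_cast hH1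
  have hH0 : (0 : ℝ) < H := by linarith
  have hX12 : x1 ≤ X / 2 := by
    have h4 : x1 ≤ X ^ (1 / 2 : ℝ) := Real.rpow_le_rpow_of_exponent_le (by linarith) (by norm_num)
    have h5 : X ^ (1 / 2 : ℝ) * X ^ (1 / 2 : ℝ) = X := by
      rw [← Real.rpow_add hX0]; norm_num
    have h6 : (2 : ℝ) ≤ X ^ (1 / 2 : ℝ) := two_le_half X (by linarith)
    nlinarith
  have hHX2 : (H : ℝ) ≤ X / 2 := hHX.trans hX12
  have hJcard : (J.card : ℝ) ≤ H := by
    have := card_le_card hJH
    rw [Nat.card_Icc, Nat.add_sub_cancel] at this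
    exact_mod_cast this
  -- non-primes
  set La : ℕ → ℝ := fun m => if m.Prime then 0 else ArithmeticFunction.vonMangoldt m with hLa
  have hLa0 : ∀ m, 0 ≤ La m := by
    intro m
    simp only [hLa]
    split_ifs
    · exact le_rfl
    · exact ArithmeticFunction.vonMangoldt_nonneg
  set N : ℕ → ℕ := fun n => (J.filter (fun j => (n + j).Prime)).card with hN
  have hNH : ∀ n, (N n : ℝ) ≤ H := by
    intro n
    refine le_trans ?_ hJcard
    exact_mod_cast card_le_card (filter_subset _ _)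
  have hPhi1 : ∀ u : ℝ, Phi u ≤ 1 / 2 := Phi_le_half
  have hHX1 : 2 * (H : ℝ) / X ≤ 1 := by rw [div_le_one hX0]; linarith
  -- pointwise
  have hA : ∀ n ∈ I, ∑ j ∈ J, Phi (((n + j : ℕ) : ℝ) / X) * ArithmeticFunction.vonMangoldt (n + j) ≤
      ∑ j ∈ J, La (n + j) + (Phi (n / X) + 2 * H / X) * (Real.log (3 * X) * N n) := by
    intro n hn
    rw [hI, mem_filter, mem_Icc] at hn
    have hn1 : 1 ≤ n := hn.1.1
    have hterm : ∀ j ∈ J, Phi (((n + j : ℕ) : ℝ) / X) * ArithmeticFunction.vonMangoldt (n + j) ≤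
        La (n + j) + (if (n + j).Prime then (Phi (n / X) + 2 * H / X) * Real.log (3 * X) else 0) := by
      intro j hj
      have hjH := (mem_Icc.1 (hJH hj)).2
      have hP0 := Phi_nonneg (((n + j : ℕ) : ℝ) / X)
      by_cases hp : (n + j).Prime
      · simp only [hLa, hp, if_true, zero_add]
        by_cases hbig : Real.exp 1 ≤ ((n + j : ℕ) : ℝ) / X
        · rw [Phi_eq_zero_of_ge hbig, zero_mul]
          have := Phi_nonneg ((n : ℝ) / X)
          positivity
        push Not at hbig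
        have hsm : ((n + j : ℕ) : ℝ) ≤ 3 * X := by
          rw [div_lt_iff₀ hX0] at hbig
          have := Real.exp_one_lt_d9
          nlinarith
        have hΛ : (ArithmeticFunction.vonMangoldt (n + j) : ℝ) ≤ Real.log (3 * X) :=
          (ArithmeticFunction.vonMangoldt_le_log).trans
            (Real.log_le_log (by exact_mod_cast hp.pos) hsm)
        have hPh : Phi (((n + j : ℕ) : ℝ) / X) ≤ Phi (n / X) + 2 * H / X := by
          by_cases hn2 : (n : ℝ) ≤ X / 2
          · have : ((n + j : ℕ) : ℝ) / X ≤ 1 := by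
              rw [div_le_one hX0]
              push_cast
              have : (j : ℝ) ≤ H := by exact_mod_cast hjH
              linarith
            rw [Phi_eq_zero_of_le (by positivity) this]
            have := Phi_nonneg ((n : ℝ) / X)
            positivity
          · push Not at hn2
            refine (Phi_lip X hX0 n j hn1).trans ?_
            have h4 : (j : ℝ) / n ≤ 2 * H / X := by
              have hjr : (j : ℝ) ≤ H := by exact_mod_cast hjH
              calc (j : ℝ) / n ≤ H / (X / 2) := by gcongr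
                _ = _ := by field_simp
            linarith
        exact mul_le_mul hPh hΛ ArithmeticFunction.vonMangoldt_nonneg (hP0.trans hPh)
      · simp only [hLa, hp, if_false, add_zero]
        have h4 : (0 : ℝ) ≤ ArithmeticFunction.vonMangoldt (n + j) := ArithmeticFunction.vonMangoldt_nonneg
        have h5 := hPhi1 (((n + j : ℕ) : ℝ) / X)
        nlinarith
    refine (sum_le_sum hterm).trans (le_of_eq ?_)
    rw [sum_add_distrib, ← sum_filter, sum_const, nsmul_eq_mul]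
    simp only [hN]
    ring
  have hpt : ∀ n ∈ I, V (n : ℤ) * ∑ j ∈ J, Phi (((n + j : ℕ) : ℝ) / X) * ArithmeticFunction.vonMangoldt (n + j) ≤
      κ * H * ((L + 2) / L) * (Phi (n / X) * V (n : ℤ)) + 2 * L * H * (Phi (n / X) * (V (n : ℤ) * T (n : ℤ))) +
        (if n ∈ bad then x1 * (2 * L * H) else 0) + x1 * (4 * L * H ^ 2 / X) + x1 * ∑ j ∈ J, La (n + j) := by
    intro n hn
    have hA' := hA n hn
    rw [hI, mem_filter, mem_Icc] at hn
    obtain ⟨⟨hn1, hn3⟩, hnr⟩ := hn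
    have hn3' : (n : ℝ) ≤ 3 * X := (Nat.le_floor_iff (by linarith)).1 hn3
    have hP0 := Phi_nonneg ((n : ℝ) / X)
    have hP1 := hPhi1 ((n : ℝ) / X)
    obtain ⟨hV0, hV1⟩ := hV (n : ℤ)
    have hT0 := hT (n : ℤ)
    have hLas : 0 ≤ ∑ j ∈ J, La (n + j) := sum_nonneg fun j _ => hLa0 _
    have hN0 : (0 : ℝ) ≤ N n := Nat.cast_nonneg _
    have hNn := hNH n
    have e1 : V (n : ℤ) * ∑ j ∈ J, La (n + j) ≤ x1 * ∑ j ∈ J, La (n + j) := mul_le_mul_of_nonneg_right hV1 hLas
    have e2 : V (n : ℤ) * (2 * H / X * (Real.log (3 * X) * N n)) ≤ x1 * (4 * L * H ^ 2 / X) := by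
      calc V (n : ℤ) * (2 * H / X * (Real.log (3 * X) * N n)) ≤ x1 * (2 * H / X * (2 * L * H)) := by gcongr
        _ = _ := by ring
    have e3 : V (n : ℤ) * ∑ j ∈ J, Phi (((n + j : ℕ) : ℝ) / X) * ArithmeticFunction.vonMangoldt (n + j) ≤
        V (n : ℤ) * ∑ j ∈ J, La (n + j) + V (n : ℤ) * (Phi (n / X) * (Real.log (3 * X) * N n)) +
          V (n : ℤ) * (2 * H / X * (Real.log (3 * X) * N n)) := by
      calc _ ≤ V (n : ℤ) * (∑ j ∈ J, La (n + j) + (Phi (n / X) + 2 * H / X) * (Real.log (3 * X) * N n)) :=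
            mul_le_mul_of_nonneg_left hA' hV0
        _ = _ := by ring
    have t1 : 0 ≤ κ * H * ((L + 2) / L) * (Phi (n / X) * V (n : ℤ)) := by positivity
    have t2 : 0 ≤ 2 * L * H * (Phi (n / X) * (V (n : ℤ) * T (n : ℤ))) := by positivity
    have t3 : (0 : ℝ) ≤ (if n ∈ bad then x1 * (2 * L * H) else 0) := by split_ifs <;> positivity
    suffices hs : V (n : ℤ) * (Phi (n / X) * (Real.log (3 * X) * N n)) ≤
        κ * H * ((L + 2) / L) * (Phi (n / X) * V (n : ℤ)) + 2 * L * H * (Phi (n / X) * (V (n : ℤ) * T (n : ℤ))) +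
        (if n ∈ bad then x1 * (2 * L * H) else 0) by linarith
    by_cases hXn : X < n
    · by_cases hb : n ∈ bad
      · rw [if_pos hb]
        have : V (n : ℤ) * (Phi (n / X) * (Real.log (3 * X) * N n)) ≤ x1 * (2 * L * H) := by
          calc V (n : ℤ) * (Phi (n / X) * (Real.log (3 * X) * N n)) ≤ x1 * (1 * (2 * L * H)) := by
                gcongr
                linarith
            _ = _ := by ring
        linarith
      · by_cases hT1 : T (n : ℤ) < 1
        · have hc := hcon n hXn hn3' hb hnr hT1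
          have : V (n : ℤ) * (Phi (n / X) * (Real.log (3 * X) * N n)) ≤
              κ * H * ((L + 2) / L) * (Phi (n / X) * V (n : ℤ)) := by
            calc V (n : ℤ) * (Phi (n / X) * (Real.log (3 * X) * N n))
                ≤ V (n : ℤ) * (Phi (n / X) * ((L + 2) * (κ * H / L))) := by
                  gcongr
              _ = _ := by ring
          linarith
        · push Not at hT1
          have : V (n : ℤ) * (Phi (n / X) * (Real.log (3 * X) * N n)) ≤
              2 * L * H * (Phi (n / X) * (V (n : ℤ) * T (n : ℤ))) := by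
            calc V (n : ℤ) * (Phi (n / X) * (Real.log (3 * X) * N n))
                ≤ (V (n : ℤ) * T (n : ℤ)) * (Phi (n / X) * (2 * L * H)) := by
                  have h4 : V (n : ℤ) ≤ V (n : ℤ) * T (n : ℤ) := le_mul_of_one_le_right hV0 hT1
                  gcongr
              _ = _ := by ring
          linarith
    · have h0 : Phi (n / X) = 0 := Phi_eq_zero_of_le (by positivity) (by
        rw [div_le_one hX0]
        exact not_lt.1 hXn)
      rw [h0] at t1 t2 ⊢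
      simp only [zero_mul, mul_zero] at t1 t2 ⊢
      linarith
  have hsum := Finset.sum_le_sum hpt
  rw [Finset.sum_add_distrib, Finset.sum_add_distrib, Finset.sum_add_distrib, Finset.sum_add_distrib,
    ← Finset.mul_sum, ← Finset.mul_sum] at hsum
  -- lower bound of the left side
  have hLeft : ∑ j ∈ J, ∑ n ∈ (Icc 1 ⌊3 * X⌋₊).filter (fun n => n ≡ r + j [MOD W]),
        Phi (n / X) * ArithmeticFunction.vonMangoldt n * V ((n : ℤ) - j) ≤
      ∑ n ∈ I, V (n : ℤ) * ∑ j ∈ J, Phi (((n + j : ℕ) : ℝ) / X) * ArithmeticFunction.vonMangoldt (n + j) := by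
    have h4 : ∑ n ∈ I, V (n : ℤ) * ∑ j ∈ J, Phi (((n + j : ℕ) : ℝ) / X) * ArithmeticFunction.vonMangoldt (n + j) =
        ∑ j ∈ J, ∑ n ∈ I, Phi (((n + j : ℕ) : ℝ) / X) * ArithmeticFunction.vonMangoldt (n + j) * V (n : ℤ) := by
      rw [sum_comm]
      apply sum_congr rfl
      intro n _
      rw [mul_sum]
      apply sum_congr rfl
      intro j _
      ring
    rw [h4]
    apply sum_le_sum
    intro j hj
    apply shift_sum X (by linarith) W r j _ V (fun a => (hV a).1)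
    have h5 : (j : ℝ) ≤ H := by exact_mod_cast (mem_Icc.1 (hJH hj)).2
    linarith
  -- the bad ones
  have hcardI : (I.card : ℝ) ≤ 3 * X := by
    have h4 : I.card ≤ ⌊3 * X⌋₊ := by
      refine (card_le_card (filter_subset _ _)).trans ?_
      rw [Nat.card_Icc, Nat.add_sub_cancel]
    exact (by exact_mod_cast h4 : (I.card : ℝ) ≤ (⌊3 * X⌋₊ : ℝ)).trans (Nat.floor_le (by linarith))
  have hb1 : ∑ n ∈ I, (if n ∈ bad then x1 * (2 * L * H) else 0) ≤ 2 * L * H * X ^ (92 / 100 : ℝ) := by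
    rw [← Finset.sum_filter, Finset.sum_const, nsmul_eq_mul]
    have h4 : ((I.filter (fun n => n ∈ bad)).card : ℝ) ≤ bad.card := by
      apply Nat.cast_le.2
      apply Finset.card_le_card
      intro n hn
      exact (mem_filter.1 hn).2
    calc ((I.filter (fun n => n ∈ bad)).card : ℝ) * (x1 * (2 * L * H)) ≤ X ^ (9 / 10 : ℝ) * (x1 * (2 * L * H)) := by
          apply mul_le_mul_of_nonneg_right (h4.trans hbad) (by positivity)
      _ = 2 * L * H * (X ^ (9 / 10 : ℝ) * X ^ (1 / 100 : ℝ)) := by rw [hx1]; ring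
      _ = 2 * L * H * X ^ (91 / 100 : ℝ) := by
          rw [← Real.rpow_add hX0]
          norm_num
      _ ≤ 2 * L * H * X ^ (92 / 100 : ℝ) := by
          apply mul_le_mul_of_nonneg_left _ (by positivity)
          exact Real.rpow_le_rpow_of_exponent_le (by linarith) (by norm_num)
  have hb2 : ∑ n ∈ I, x1 * (4 * L * H ^ 2 / X) ≤ 12 * L * H * X ^ (92 / 100 : ℝ) := by
    rw [Finset.sum_const, nsmul_eq_mul]
    calc (I.card : ℝ) * (x1 * (4 * L * H ^ 2 / X)) ≤ (3 * X) * (x1 * (4 * L * H ^ 2 / X)) := by gcongr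
      _ = 12 * L * H * (x1 * H) := by field_simp; ring
      _ ≤ 12 * L * H * (x1 * x1) := by gcongr
      _ = 12 * L * H * X ^ (2 / 100 : ℝ) := by
          rw [hx1, ← Real.rpow_add hX0]; norm_num
      _ ≤ _ := by
          apply mul_le_mul_of_nonneg_left _ (by positivity)
          exact Real.rpow_le_rpow_of_exponent_le (by linarith) (by norm_num)
  have hb3 : ∑ n ∈ I, x1 * ∑ j ∈ J, La (n + j) ≤ 16 * L * H * X ^ (92 / 100 : ℝ) := by
    have h4 : ∀ j ∈ J, ∑ n ∈ I, La (n + j) ≤ 16 * L * X ^ (1 / 2 : ℝ) := by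
      intro j hj
      have hjH := (mem_Icc.1 (hJH hj)).2
      have hjr : (j : ℝ) ≤ H := by exact_mod_cast hjH
      have h5 : ∑ n ∈ I, La (n + j) ≤ ∑ m ∈ Ioc 0 ⌊4 * X⌋₊ with ¬ m.Prime, (ArithmeticFunction.vonMangoldt m : ℝ) := by
        have h6 : ∑ n ∈ I, La (n + j) = ∑ m ∈ I.image (fun n => n + j), La m := by
          rw [sum_image]
          intro a _ b _ hab
          exact Nat.add_right_cancel hab
        have e : ∑ n ∈ Ioc 0 ⌊4 * X⌋₊ with ¬ n.Prime, (ArithmeticFunction.vonMangoldt n : ℝ) =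
            ∑ n ∈ Ioc 0 ⌊4 * X⌋₊, (if ¬ n.Prime then (ArithmeticFunction.vonMangoldt n : ℝ) else 0) :=
          Finset.sum_filter (s := Ioc 0 ⌊4 * X⌋₊) _ _
        have e' : ∑ n ∈ Ioc 0 ⌊4 * X⌋₊, (if ¬ n.Prime then (ArithmeticFunction.vonMangoldt n : ℝ) else 0) =
            ∑ n ∈ Ioc 0 ⌊4 * X⌋₊, La n := by
          apply sum_congr rfl
          intro n _
          simp only [hLa]
          by_cases hp : n.Prime <;> simp [hp]
        rw [h6, e, e']
        apply Finset.sum_le_sum_of_subset_of_nonneg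
        · intro m hm
          rw [mem_image] at hm
          obtain ⟨n, hn, rfl⟩ := hm
          rw [hI, mem_filter, mem_Icc] at hn
          rw [mem_Ioc]
          refine ⟨by omega, Nat.le_floor ?_⟩
          have h7 : (n : ℝ) ≤ 3 * X := (Nat.le_floor_iff (by linarith)).1 hn.1.2
          push_cast
          linarith
        · intro m _ _
          exact hLa0 m
      rw [← Chebyshev.psi_sub_theta_eq_sum_not_prime] at h5
      refine h5.trans ((Chebyshev.psi_sub_theta_le (by linarith)).trans ?_)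
      have h6 : Real.sqrt (4 * X) ≤ 2 * X ^ (1 / 2 : ℝ) := by
        rw [← Real.sqrt_eq_rpow, Real.sqrt_mul (by norm_num)]
        apply mul_le_mul_of_nonneg_right _ (Real.sqrt_nonneg _)
        rw [Real.sqrt_le_left (by norm_num)]
        norm_num
      have h7 : Real.log (4 * X) ≤ 2 * L := by
        rw [Real.log_mul (by norm_num) hX0.ne']
        have : Real.log 4 ≤ Real.log X := Real.log_le_log (by norm_num) (by linarith)
        linarith
      calc 2 * Real.sqrt (4 * X) * Real.log (4 * X) ≤ 2 * (2 * X ^ (1 / 2 : ℝ)) * (2 * L) := by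
            have : 0 ≤ Real.log (4 * X) := Real.log_nonneg (by linarith)
            gcongr
        _ = 8 * L * X ^ (1 / 2 : ℝ) := by ring
        _ ≤ _ := by
            have : 0 ≤ L * X ^ (1 / 2 : ℝ) := by positivity
            linarith
    rw [← mul_sum, sum_comm]
    calc x1 * ∑ j ∈ J, ∑ n ∈ I, La (n + j) ≤ x1 * ∑ j ∈ J, 16 * L * X ^ (1 / 2 : ℝ) := by
          gcongr with j hj
          exact h4 j hj
      _ = x1 * (J.card * (16 * L * X ^ (1 / 2 : ℝ))) := by rw [sum_const, nsmul_eq_mul]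
      _ ≤ x1 * (H * (16 * L * X ^ (1 / 2 : ℝ))) := by gcongr
      _ = 16 * L * H * (X ^ (1 / 100 : ℝ) * X ^ (1 / 2 : ℝ)) := by rw [hx1]; ring
      _ = 16 * L * H * X ^ (51 / 100 : ℝ) := by
          rw [← Real.rpow_add hX0]
          norm_num
      _ ≤ _ := by
          apply mul_le_mul_of_nonneg_left _ (by positivity)
          exact Real.rpow_le_rpow_of_exponent_le (by linarith) (by norm_num)
  -- main terms
  set P := X / (W : ℝ) with hP
  have hP0 : 0 < P := by rw [hP]; positivity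
  have hP3 : X / ((W : ℝ) * L ^ 3) = P / L ^ 3 := by rw [hP, div_div]
  rw [hP3] at h1 h2
  simp only [hP3] at h3
  have hsmall : 30 * L * H * X ^ (92 / 100 : ℝ) ≤ δ / 8 * (H * Z₁ * P) := by
    have h5 := hg W hWr.le hWle
    have h6 : X ^ (92 / 100 : ℝ) ≤ X ^ (93 / 100 : ℝ) :=
      Real.rpow_le_rpow_of_exponent_le (by linarith) (by norm_num)
    have h7 : 30 * L * X ^ (92 / 100 : ℝ) ≤ δ / 8 * P := by
      rw [hP, ← mul_div_assoc, le_div_iff₀ hWr]
      calc 30 * L * X ^ (92 / 100 : ℝ) * W ≤ 100 * L * X ^ (93 / 100 : ℝ) * W := by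
            gcongr
            norm_num
        _ = W * (100 * L) * X ^ (93 / 100 : ℝ) := by ring
        _ ≤ δ / 8 * X := h5
    have h8 : δ / 8 * P ≤ δ / 8 * P * Z₁ := le_mul_of_one_le_right (by positivity) hZ
    calc 30 * L * H * X ^ (92 / 100 : ℝ) = (30 * L * X ^ (92 / 100 : ℝ)) * H := by ring
      _ ≤ (δ / 8 * P * Z₁) * H := mul_le_mul_of_nonneg_right (h7.trans h8) hH0.le
      _ = _ := by ring
  -- normalised quantities
  set φX := MPhi X / X with hφX
  have hMφ : MPhi X * (1 / (W : ℝ)) = φX * P := by rw [hφX, hP]; field_simp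
  have hφ1 : 1 / 20 ≤ φX := by
    rw [hφX, le_div_iff₀ hX0]
    have := MPhi_ge X hX40
    linarith
  have hφ2 : φX ≤ 2 := by
    rw [hφX, div_le_iff₀ hX0]
    exact MPhi_le X (by linarith)
  set ε₁ := δ / (8 * κ') with hε₁
  have hε₁κ : κ' * ε₁ = δ / 8 := by rw [hε₁]; field_simp
  have hLφ : (φX - ε₁) * P ≤ LPhi X * (1 / (W : ℝ)) := by
    have h5 := (abs_le.1 hLM).1
    have h6 : (φX - ε₁) * X ≤ LPhi X := by
      have : φX * X = MPhi X := by rw [hφX]; field_simp
      linarith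
    calc (φX - ε₁) * P = ((φX - ε₁) * X) * (1 / (W : ℝ)) := by rw [hP]; ring
      _ ≤ _ := mul_le_mul_of_nonneg_right h6 (by positivity)
  have hM0 : 0 < M := by linarith
  have hM'0 : 0 ≤ M' := by
    have h5 : 1 / L ≤ 1 := by rw [div_le_one hL0]; linarith
    have h6 : 0 ≤ (1 - 1 / L) * M := mul_nonneg (by linarith) hM0.le
    linarith
  have hLP0 := LPhi_nonneg' X
  -- left
  have hlow : κ' * H * (M' * (LPhi X * (1 / (W : ℝ)))) - H * (Z₁ * (P / L ^ 3)) ≤
      ∑ j ∈ J, ∑ n ∈ (Icc 1 ⌊3 * X⌋₊).filter (fun n => n ≡ r + j [MOD W]),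
        Phi (n / X) * ArithmeticFunction.vonMangoldt n * V ((n : ℤ) - j) := by
    have h5 : ∀ j ∈ J, M' * (LPhi X * (1 / (W.totient : ℝ))) - Z₁ * (P / L ^ 3) ≤
        ∑ n ∈ (Icc 1 ⌊3 * X⌋₊).filter (fun n => n ≡ r + j [MOD W]),
        Phi (n / X) * ArithmeticFunction.vonMangoldt n * V ((n : ℤ) - j) := by
      intro j hj
      have := (abs_le.1 (h3 j hj)).1
      linarith
    have h6 := sum_le_sum h5
    rw [sum_const, nsmul_eq_mul] at h6
    refine le_trans ?_ h6
    have h7 : κ' * H * (M' * (LPhi X * (1 / (W : ℝ)))) ≤ J.card * (M' * (LPhi X * (1 / (W.totient : ℝ)))) := by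
      calc κ' * H * (M' * (LPhi X * (1 / (W : ℝ)))) =
          (κ' * H * ((W.totient : ℝ) / W)) * (M' * (LPhi X * (1 / (W.totient : ℝ)))) := by
            field_simp
        _ ≤ _ := by gcongr
    have h8 : (J.card : ℝ) * (Z₁ * (P / L ^ 3)) ≤ H * (Z₁ * (P / L ^ 3)) := by
      have : 0 ≤ Z₁ * (P / L ^ 3) := by positivity
      gcongr
    linarith
  have hS1 := (abs_le.1 h1).2
  have hS2 := (abs_le.1 h2).2
  rw [hMφ] at hS1 hS2
  set S1 := ∑ n ∈ I, Phi (n / X) * V (n : ℤ) with hS1d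
  set S2 := ∑ n ∈ I, Phi (n / X) * (V (n : ℤ) * T (n : ℤ)) with hS2d
  -- scaled by P * Z₁ * H
  have hL3 : (0 : ℝ) < L ^ 3 := by positivity
  set q := 1 / L ^ 3 with hq
  have hPq : P / L ^ 3 = P * q := by rw [hq]; ring
  rw [hPq] at hS1 hS2 hlow
  have hq0 : 0 < q := by positivity
  have hM2q : M₂ ≤ Z₁ * q := by rw [hq]; rw [mul_one_div]; exact hM2
  have hS1' : S1 ≤ M * φX * P + Z₁ * P * q := by linarith
  have hS2' : S2 ≤ 3 * (Z₁ * P * q) := by
    have h5 : M₂ * (φX * P) ≤ (Z₁ * q) * (2 * P) := by gcongr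
    linarith
  have hmain : κ' * H * (M' * (LPhi X * (1 / (W : ℝ)))) ≤ κ * H * ((L + 2) / L) * S1 + 2 * L * H * S2 +
      30 * L * H * X ^ (92 / 100 : ℝ) + H * (Z₁ * (P * q)) := by
    have h5 := hLeft.trans hsum
    linarith
  have hstep1 : κ' * H * ((1 - 1 / L) * M * ((φX - ε₁) * P)) ≤ κ' * H * (M' * (LPhi X * (1 / (W : ℝ)))) := by
    have h5 : ε₁ ≤ 1 / 20 := by
      by_contra hc
      push Not at hc
      have h6 : κ' * (1 / 20) < κ' * ε₁ := mul_lt_mul_of_pos_left hc hκ'0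
      rw [hε₁κ, hδ] at h6
      nlinarith
    have h6 : 0 ≤ (φX - ε₁) * P := mul_nonneg (by linarith) hP0.le
    gcongr
  have hfin : κ' * ((1 - 1 / L) * M * (φX - ε₁)) ≤ κ * ((L + 2) / L) * (M * φX + Z₁ * q) + 6 * L * (Z₁ * q) +
      δ / 8 * Z₁ + Z₁ * q := by
    have h5 : κ * H * ((L + 2) / L) * S1 ≤ κ * H * ((L + 2) / L) * (M * φX * P + Z₁ * P * q) := by gcongr
    have h6 : 2 * L * H * S2 ≤ 2 * L * H * (3 * (Z₁ * P * q)) := by gcongr
    have h7 : (κ' * ((1 - 1 / L) * M * (φX - ε₁))) * (H * P) ≤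
        (κ * ((L + 2) / L) * (M * φX + Z₁ * q) + 6 * L * (Z₁ * q) + δ / 8 * Z₁ + Z₁ * q) * (H * P) := by
      calc (κ' * ((1 - 1 / L) * M * (φX - ε₁))) * (H * P) = κ' * H * ((1 - 1 / L) * M * ((φX - ε₁) * P)) := by ring
        _ ≤ κ' * H * (M' * (LPhi X * (1 / (W : ℝ)))) := hstep1
        _ ≤ κ * H * ((L + 2) / L) * (M * φX * P + Z₁ * P * q) + 2 * L * H * (3 * (Z₁ * P * q)) +
            δ / 8 * (H * Z₁ * P) + H * (Z₁ * (P * q)) := by linarith
        _ = _ := by ring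
    exact le_of_mul_le_mul_right h7 (by positivity)
  -- the contradiction
  set i := 1 / L with hi
  have hi0 : 0 < i := by positivity
  have hi1 : i ≤ 1 / 1000 := one_div_le_one_div_of_le (by norm_num) hL
  have hL2 : (L + 2) / L = 1 + 2 * i := by rw [hi]; field_simp
  have hLq : L * q = i ^ 2 := by rw [hq, hi]; field_simp
  have hqi : q = i ^ 3 := by rw [hq, hi]; ring
  have hδi : (2 * κ' + 6 * κ + 7) * i ≤ δ / 16 := by
    rw [div_le_iff₀ hδ0] at hLδ
    rw [hi, mul_one_div, div_le_iff₀ hL0]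
    linarith
  rw [hL2, show 6 * L * (Z₁ * q) = 6 * (L * q) * Z₁ by ring, hLq, hqi] at hfin
  have hi2 : i ^ 2 ≤ i := by nlinarith
  have hi3 : i ^ 3 ≤ i := by nlinarith [sq_nonneg i]
  have hZ0 : 0 < Z₁ := by linarith
  -- left lower bound
  have l1 : κ' * (M * φX) - κ' * (2 * i) * Z₁ - δ / 8 * Z₁ ≤ κ' * ((1 - i) * M * (φX - ε₁)) := by
    have h5 : κ' * ((1 - i) * M * (φX - ε₁)) = κ' * (M * φX) - κ' * i * (M * φX) - (κ' * ε₁) * ((1 - i) * M) := by ring
    rw [h5, hε₁κ]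
    have h6 : κ' * i * (M * φX) ≤ κ' * i * (Z₁ * 2) := by gcongr
    have h7 : δ / 8 * ((1 - i) * M) ≤ δ / 8 * (1 * Z₁) := by
      have : 0 ≤ 1 - i := by linarith
      gcongr
      linarith
    linarith
  have l2 : κ * (1 + 2 * i) * (M * φX + Z₁ * i ^ 3) ≤ κ * (M * φX) + κ * (6 * i) * Z₁ := by
    have h5 : κ * (1 + 2 * i) * (M * φX + Z₁ * i ^ 3) = κ * (M * φX) + κ * (2 * i) * (M * φX) +
      κ * (1 + 2 * i) * (Z₁ * i ^ 3) := by ring
    rw [h5]
    have h6 : κ * (2 * i) * (M * φX) ≤ κ * (2 * i) * (Z₁ * 2) := by gcongr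
    have h7 : κ * (1 + 2 * i) * (Z₁ * i ^ 3) ≤ κ * 2 * (Z₁ * i) := by
      gcongr
      linarith
    linarith
  have l3 : 6 * i ^ 2 * Z₁ + Z₁ * i ^ 3 ≤ 7 * i * Z₁ := by
    have h5 : 6 * i ^ 2 * Z₁ ≤ 6 * i * Z₁ := by gcongr
    have h6 : Z₁ * i ^ 3 ≤ Z₁ * i := by gcongr
    linarith
  have l4 : δ * Z₁ ≤ (κ' - κ) * (M * φX) := by
    have h5 : 3 / 4 * Z₁ * (1 / 20) ≤ M * φX := by
      apply mul_le_mul hM hφ1 (by norm_num) hM0.le
    have h6 : (κ' - κ) * (3 / 4 * Z₁ * (1 / 20)) ≤ (κ' - κ) * (M * φX) :=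
      mul_le_mul_of_nonneg_left h5 (by linarith)
    rw [hδ]
    linarith
  have l5 : (2 * κ' + 6 * κ + 7) * i * Z₁ ≤ δ / 16 * Z₁ := mul_le_mul_of_nonneg_right hδi hZ0.le
  have l6 : 0 < δ * Z₁ := by positivity
  linarith

end Pool.Agent.H22.RC
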