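import Pool.Agent.H22.RC.Wts
import Pool.Agent.H22.RC.ClsX
import Pool.Agent.H22.RC.Rich
import Pool.Graph.R_seed8.H378R2.Final

set_option autoImplicit false
set_option maxHeartbeats 4000000

/-! # Record gaps followed by an excess of primes -/

namespace Pool.Agent.H22.RC

open Finset Filter Topology
open Pool.Agent.R529.BU (om om_ge)
open Pool.Agent.H378R2
open Pool.Agent.H312R2.RG (not_dvd_diff BVat ev_ff)
open Pool.Agent.H256R2.SC (ff)

open scoped Classical

/-- comparison of the lengths -/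
theorem ev_len (B κ₀ κ₁ : ℝ) (hB : 1 < B) (h0 : 0 < κ₀) (h1 : κ₀ < κ₁) : ∀ᶠ L : ℝ in atTop,
    κ₀ * (L + 2) ^ (B - 1) ≤ κ₁ * (L ^ B - 1) / L := by
  have t1 : Tendsto (fun L : ℝ => κ₀ * (1 + 2 * L⁻¹) ^ (B - 1)) atTop (𝓝 (κ₀ * (1 + 2 * 0) ^ (B - 1))) := by
    apply Tendsto.const_mul
    apply Tendsto.rpow_const
    · exact (tendsto_inv_atTop_zero.const_mul 2).const_add 1
    · left; norm_num
  have t2 : Tendsto (fun L : ℝ => κ₁ * (1 - L ^ (-B))) atTop (𝓝 (κ₁ * (1 - 0))) :=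
    ((tendsto_rpow_neg_atTop (show 0 < B by linarith)).const_sub 1).const_mul κ₁
  have h2 : κ₀ * (1 + 2 * 0) ^ (B - 1) < κ₁ * (1 - 0) := by simpa using h1
  filter_upwards [t1.eventually_lt t2 h2, eventually_gt_atTop 0] with L h3 h4
  have e1 : (L + 2) ^ (B - 1) = L ^ (B - 1) * (1 + 2 * L⁻¹) ^ (B - 1) := by
    rw [← Real.mul_rpow h4.le (by positivity)]
    congr 1
    field_simp
  have e2 : κ₁ * (L ^ B - 1) / L = L ^ (B - 1) * (κ₁ * (1 - L ^ (-B))) := by
    rw [Real.rpow_sub_one h4.ne', Real.rpow_neg h4.le]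
    have : L ^ B ≠ 0 := (Real.rpow_pos_of_pos h4 B).ne'
    field_simp
  rw [e1, e2]
  have h5 : 0 ≤ L ^ (B - 1) := by positivity
  calc κ₀ * (L ^ (B - 1) * (1 + 2 * L⁻¹) ^ (B - 1)) = L ^ (B - 1) * (κ₀ * (1 + 2 * L⁻¹) ^ (B - 1)) := by ring
    _ ≤ _ := mul_le_mul_of_nonneg_left h3.le h5

/-- growth of the lengths -/
theorem ev_size (B : ℝ) (A : ℕ) (hB : 1 < B) (hA : B + 1 ≤ A) : ∀ᶠ X : ℝ in atTop,
    2 * (Real.log X) ^ B ≤ (Real.log X) ^ A ∧ 2 ≤ (Real.log X) ^ B ∧ (Real.log X) ^ B ≤ X ^ (1 / 100 : ℝ) := by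
  have t1 := Real.tendsto_log_atTop
  have h1 : ∀ᶠ L : ℝ in atTop, L ^ B ≤ Real.exp (1 / 100 * L) := by
    have := (isLittleO_rpow_exp_pos_mul_atTop B (show (0 : ℝ) < 1 / 100 by norm_num)).def one_pos
    filter_upwards [this, eventually_gt_atTop 0] with L h2 h3
    rwa [one_mul, Real.norm_of_nonneg (by positivity), Real.norm_of_nonneg (Real.exp_pos _).le] at h2
  filter_upwards [t1.eventually h1, t1.eventually_ge_atTop 2, eventually_gt_atTop 0] with X h2 h3 h4
  have hL0 : 0 < Real.log X := by linarith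
  refine ⟨?_, ?_, ?_⟩
  · calc 2 * (Real.log X) ^ B ≤ (Real.log X) * (Real.log X) ^ B := by gcongr
      _ = (Real.log X) ^ (B + 1) := by rw [Real.rpow_add_one hL0.ne']; ring
      _ ≤ (Real.log X) ^ (A : ℝ) := Real.rpow_le_rpow_of_exponent_le (by linarith) hA
      _ = _ := Real.rpow_natCast _ _
  · calc (2 : ℝ) ≤ Real.log X := h3
      _ = (Real.log X) ^ (1 : ℝ) := (Real.rpow_one _).symm
      _ ≤ _ := Real.rpow_le_rpow_of_exponent_le (by linarith) hB.le
  · refine h2.trans (le_of_eq ?_)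
    rw [Real.rpow_def_of_pos h4]
    congr 1
    ring

/-- the primes of an interval -/
theorem card_primes_le (n K H : ℕ) (J : Finset ℕ) (hJ : J ⊆ Ioc K H) (N : ℕ) (hN : n + H ≤ N) :
    ((J.filter (fun j => (n + j).Prime)).card : ℝ) ≤ (Nat.primeCounting N : ℝ) - Nat.primeCounting n := by
  have h1 : (J.filter (fun j => (n + j).Prime)).card + Nat.primeCounting n ≤ Nat.primeCounting N := by
    rw [Nat.primeCounting, Nat.primeCounting', Nat.count_eq_card_filter_range, Nat.primeCounting,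
      Nat.primeCounting', Nat.count_eq_card_filter_range]
    have h2 : ((J.filter (fun j => (n + j).Prime)).image (fun j => n + j)).card =
        (J.filter (fun j => (n + j).Prime)).card := by
      apply card_image_of_injective
      intro a b hab
      exact Nat.add_left_cancel hab
    rw [← h2, ← card_union_of_disjoint]
    · apply card_le_card
      intro q hq
      rw [mem_union, mem_image] at hq
      rw [mem_filter, mem_range]
      rcases hq with ⟨j, hj, rfl⟩ | hq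
      · rw [mem_filter] at hj
        have := mem_Ioc.1 (hJ hj.1)
        exact ⟨by omega, hj.2⟩
      · rw [mem_filter, mem_range] at hq
        exact ⟨by omega, hq.2⟩
    · rw [disjoint_left]
      intro q hq hq'
      rw [mem_image] at hq
      obtain ⟨j, hj, rfl⟩ := hq
      rw [mem_filter] at hj
      have := mem_Ioc.1 (hJ hj.1)
      rw [mem_filter, mem_range] at hq'
      omega
  have h2 : ((J.filter (fun j => (n + j).Prime)).card : ℝ) + Nat.primeCounting n ≤ Nat.primeCounting N := by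
    exact_mod_cast h1
  linarith

theorem record_excess (B κ : ℝ) (hB : 1 < B) (hκ : κ < Real.exp Real.eulerMascheroniConstant * om B) :
    ∃ c : ℝ, 0 < c ∧ ∀ᶠ X : ℝ in atTop, ∀ bad : Finset ℕ, (bad.card : ℝ) ≤ X ^ (9 / 10 : ℝ) →
      ∃ n : ℕ, X < n ∧ (n : ℝ) ≤ 3 * X ∧ n ∉ bad ∧
        (∀ q : ℕ, q.Prime → c * ff X < |(q : ℝ) - n|) ∧
        κ * (Real.log n) ^ (B - 1) ≤
          (Nat.primeCounting ⌊(n : ℝ) + (Real.log n) ^ B⌋₊ : ℝ) - Nat.primeCounting n := by
  set E := Real.exp Real.eulerMascheroniConstant * om B with hE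
  have hE0 : 0 < E := by
    have := om_ge B hB.le
    have h2 : 0 < om B := by linarith
    rw [hE]; positivity
  set κ₀ : ℝ := max κ (E / 2) with hκ₀
  have hκ₀0 : 0 < κ₀ := lt_of_lt_of_le (by positivity) (le_max_right _ _)
  have hκ₀1 : κ₀ < E := max_lt hκ (by linarith)
  set κ₁ : ℝ := κ₀ + (E - κ₀) / 3 with hκ₁
  set κ₂ : ℝ := κ₀ + 2 * (E - κ₀) / 3 with hκ₂
  have h01 : κ₀ < κ₁ := by rw [hκ₁]; linarith
  have h12 : κ₁ < κ₂ := by rw [hκ₁, hκ₂]; linarith
  have h2E : κ₂ < E := by rw [hκ₂]; linarith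
  obtain ⟨A, c₃, hA4, hc₃, hw⟩ := weightsJ (⌈B⌉₊ + 3)
  have hBA : B + 1 ≤ A := by
    have h1 := Nat.le_ceil B
    have h2 : ((⌈B⌉₊ + 3 + 4 : ℕ) : ℝ) ≤ A := by exact_mod_cast hA4
    push_cast at h2
    linarith
  obtain ⟨Z, c, hc, hcls⟩ := classesX B κ₂ (c₃ / 2) hB h2E (by positivity)
  obtain ⟨X1, hbv⟩ := bvrel_holds A Z
  refine ⟨c, hc, ?_⟩
  filter_upwards [hw Z, hcls, exists_rich κ₁ κ₂ (by linarith) h12, eventually_ge_atTop X1,
    eventually_ge_atTop 40, Real.tendsto_log_atTop.eventually_ge_atTop (max 10 (2 / c₃)),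
    ev_size B A hB hBA, Real.tendsto_log_atTop.eventually (ev_len B κ₀ κ₁ hB hκ₀0 h01)]
    with X hwX hclsX hrX hX1 hX40 hLc hsz hlen
  intro bad hbad
  obtain ⟨ps, S, hps, hS, hBV⟩ := hbv X hX1
  obtain ⟨r, K, hK1, hK2, hK3, hwin, hJc⟩ := hclsX ps S hps hS
  obtain ⟨s1, s2, s3⟩ := hsz
  have hX0 : 0 < X := by linarith
  have hWle := WW_le X (by linarith) S ps
  have hW0 := WW_pos X S ps
  set L := Real.log X with hL
  have hL10 : 10 ≤ L := (le_max_left _ _).trans hLc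
  have hLc3 : 2 / c₃ ≤ L := (le_max_right _ _).trans hLc
  have hL0 : 0 < L := by linarith
  set H := ⌊L ^ B⌋₊ with hH
  have hHL : (H : ℝ) ≤ L ^ B := Nat.floor_le (by positivity)
  have hHL' : L ^ B < (H : ℝ) + 1 := Nat.lt_floor_add_one _
  have hH1 : 1 ≤ H := by omega
  have hHX : (H : ℝ) ≤ X ^ (1 / 100 : ℝ) := hHL.trans s3
  have h2HA : 2 * (H : ℝ) ≤ L ^ A := by linarith
  set W := WW X S ps with hW
  set U0 : Finset ℕ := (range (2 * K + 1)).filter (fun k => ∀ p ∈ PW X S ps, ¬ (p : ℤ) ∣ (r : ℤ) + ((k : ℤ) - K))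
    with hU0
  set U : Finset ℕ := insert K U0 with hU
  have hUne : U.Nonempty := ⟨K, by rw [hU]; exact mem_insert_self _ _⟩
  have hU2K : ∀ k ∈ U, k ≤ 2 * K := by
    intro k hk
    rw [hU, mem_insert] at hk
    rcases hk with rfl | hk
    · omega
    · rw [hU0, mem_filter, mem_range] at hk
      omega
  have hUc : (U.card : ℝ) ≤ c₃ * L := by
    have h1 : U0.card ≤ ((Icc (-(K : ℤ)) K).filter (fun m => ∀ p ∈ PW X S ps, ¬ (p : ℤ) ∣ (r : ℤ) + m)).card := by
      apply card_le_card_of_injOn (fun k : ℕ => (k : ℤ) - K)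
      · intro k hk
        simp only [hU0, coe_filter, Set.mem_ofPred_eq, mem_range, mem_Icc] at hk ⊢
        exact ⟨by omega, hk.2⟩
      · intro a _ b _ hab
        simp only [sub_left_inj, Nat.cast_inj] at hab
        exact hab
    have h2 : U.card ≤ U0.card + 1 := by rw [hU]; exact card_insert_le _ _
    have h3 : (U.card : ℝ) ≤ (U0.card : ℝ) + 1 := by exact_mod_cast h2
    have h4 : (U0.card : ℝ) ≤ c₃ / 2 * L := le_trans (by exact_mod_cast h1) hwin
    rw [div_le_iff₀ hc₃] at hLc3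
    linarith
  obtain ⟨PP, hPP, hres⟩ := hwX ps S hps hBV {ps} U (mem_singleton_self _) (by
    rw [card_singleton]
    push_cast
    have h1 : (1 : ℝ) ≤ L ^ 3 := one_le_pow₀ (by linarith)
    have h2 : L ^ 4 = L * L ^ 3 := by ring
    rw [h2]
    nlinarith) hUne hUc
  have hUA : ∀ k ∈ U, (k : ℝ) ≤ L ^ A := by
    intro k hk
    have h1 : (k : ℝ) ≤ 2 * K := by exact_mod_cast hU2K k hk
    have h2 : (K : ℝ) ≤ H := by exact_mod_cast hK3
    linarith
  set J := (Ioc K H).filter (fun j => (r + j).Coprime W) with hJ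
  have hJH : J ⊆ Icc 1 H := by
    intro j hj
    rw [hJ, mem_filter, mem_Ioc] at hj
    rw [mem_Icc]
    omega
  obtain ⟨V, T, Z₁, M, M', M₂, w1, w2, w3, w4, w5, w6, w7, w8, w9, w10, w11, w12⟩ := hres
    (fun _ k => (K : ℤ) - (k : ℕ)) (by
      intro p hp k l hkl hd
      have h1 : (p : ℤ) ∣ (((l : ℕ) : ℤ)) - ((k : ℕ) : ℤ) := by
        have h2 : ((K : ℤ) - ((k : ℕ) : ℤ)) - ((K : ℤ) - ((l : ℕ) : ℤ)) = ((l : ℕ) : ℤ) - ((k : ℕ) : ℤ) := by ring
        rwa [h2] at hd
      exact not_dvd_diff (hUA l l.2) (hUA k k.2) (hPP p hp).2.1 (fun h => hkl (Subtype.ext h.symm)) h1)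
  have hLb : L ^ 3 ≤ L ^ (⌈B⌉₊ + 3) := pow_le_pow_right₀ (by linarith) (by omega)
  have hWr : (0 : ℝ) < W := by exact_mod_cast hW0
  have hZ0 : 0 < Z₁ := by linarith
  have herr : Z₁ * (X / ((W : ℝ) * L ^ (⌈B⌉₊ + 3))) ≤ Z₁ * (X / ((W : ℝ) * L ^ 3)) := by
    apply mul_le_mul_of_nonneg_left _ hZ0.le
    apply div_le_div_of_nonneg_left hX0.le (by positivity)
    exact mul_le_mul_of_nonneg_left hLb hWr.le
  have hM2 : M₂ ≤ Z₁ / L ^ 3 := w9.trans (div_le_div_of_nonneg_left hZ0.le (by positivity) hLb)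
  obtain ⟨n, hn1, hn2, hn3, hn4, hn5, hn6⟩ := hrX W r H J hW0 hWle hJH hH1 hHX hJc V T Z₁ M M' M₂ w1 w2 w4 w5
    w6 w7 w8 hM2 ((w10 r).trans herr) ((w11 r).trans herr) (by
      intro j hj
      refine le_trans ?_ herr
      rw [hJ, mem_filter, mem_Ioc] at hj
      have h1 := w12 (j : ℤ) (by
        intro p hp k hd
        have h2 : (p : ℤ) ∣ ((K + j : ℕ) : ℤ) - ((k : ℕ) : ℤ) := by
          have h3 : (K : ℤ) - ((k : ℕ) : ℤ) + (j : ℤ) = ((K + j : ℕ) : ℤ) - ((k : ℕ) : ℤ) := by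
            push_cast; ring
          rwa [h3] at hd
        have h4 : ((K + j : ℕ) : ℝ) ≤ L ^ A := by
          have h5 : (K : ℝ) ≤ H := by exact_mod_cast hK3
          have h6 : (j : ℝ) ≤ H := by exact_mod_cast hj.1.2
          push_cast
          linarith
        have h7 := hU2K k k.2
        exact not_dvd_diff h4 (hUA k k.2) (hPP p hp).2.1 (by omega) h2) (r + j) hj.2
      exact h1) bad hbad
  refine ⟨n, hn1, hn2, hn3, ?_, ?_⟩
  · -- the gap
    intro q hq
    by_contra hcon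
    push Not at hcon
    have hcK : |(q : ℝ) - n| ≤ K := hcon.trans hK1
    set m : ℤ := (q : ℤ) - n with hm
    have hmr : |(m : ℝ)| ≤ K := by rw [hm]; push_cast; exact hcK
    obtain ⟨hm1, hm2⟩ := abs_le.1 hmr
    have hm1' : -(K : ℤ) ≤ m := by exact_mod_cast hm1
    have hm2' : m ≤ K := by exact_mod_cast hm2
    have hqbig : X / 2 ≤ q := by
      have h1 : (K : ℝ) ≤ X / 2 := by
        have h2 : (K : ℝ) ≤ H := by exact_mod_cast hK3
        have h3 : X ^ (1 / 100 : ℝ) ≤ X ^ (1 / 2 : ℝ) :=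
          Real.rpow_le_rpow_of_exponent_le (by linarith) (by norm_num)
        have h5 : X ^ (1 / 2 : ℝ) * X ^ (1 / 2 : ℝ) = X := by
          rw [← Real.rpow_add hX0]; norm_num
        have h6 : (2 : ℝ) ≤ X ^ (1 / 2 : ℝ) := two_le_half X (by linarith)
        nlinarith
      have h2 := (abs_le.1 hcK).1
      linarith
    have hsmall : ∀ p : ℕ, (p : ℝ) ≤ X ^ (1 / 1000 : ℝ) → p ≠ q := by
      rintro p hp rfl
      have h5 : X ^ (1 / 2 : ℝ) * X ^ (1 / 2 : ℝ) = X := by
        rw [← Real.rpow_add hX0]; norm_num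
      have h3 : X ^ (1 / 1000 : ℝ) ≤ X ^ (1 / 2 : ℝ) :=
        Real.rpow_le_rpow_of_exponent_le (by linarith) (by norm_num)
      have h6 : (2 : ℝ) < X ^ (1 / 2 : ℝ) := two_lt_half X (by linarith)
      nlinarith
    have hyX : (yy X : ℝ) ≤ X ^ (1 / 1000 : ℝ) := by
      have h2 : (yy X : ℝ) ≤ L / 1000 := Nat.floor_le (by positivity)
      have h3 : X ^ (1 / 1000 : ℝ) = Real.exp (L / 1000) := by
        rw [Real.rpow_def_of_pos hX0, ← hL]
        congr 1
        ring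
      rw [h3]
      have h4 := Real.add_one_le_exp (L / 1000)
      linarith
    by_cases hk : ∀ p ∈ PW X S ps, ¬ (p : ℤ) ∣ (r : ℤ) + m
    · have hkU : (m + K).toNat ∈ U := by
        rw [hU, mem_insert]
        right
        rw [hU0, mem_filter, mem_range]
        refine ⟨by omega, fun p hp => ?_⟩
        have h1 : (((m + K).toNat : ℤ)) - K = m := by omega
        rw [h1]
        exact hk p hp
      obtain ⟨p, hp, hpd⟩ := w3 n hn5 ⟨_, hkU⟩
      have h1 : (n : ℤ) - ((K : ℤ) - (((m + K).toNat : ℕ) : ℤ)) = q := by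
        rw [hm] at hm1' ⊢
        omega
      simp only at hpd
      rw [h1] at hpd
      have h2 : p ∣ q := by exact_mod_cast hpd
      exact hsmall p (hPP p hp).2.2.1 ((Nat.prime_dvd_prime_iff_eq (hPP p hp).1 hq).1 h2)
    · push Not at hk
      obtain ⟨p, hp, hpd⟩ := hk
      have hpW : p ∣ W := (Finset.dvd_prod_of_mem _ hp)
      have h1 : (p : ℤ) ∣ (n : ℤ) - r := by
        have h2 : n ≡ r [MOD p] := hn4.of_dvd hpW
        have h3 := (Nat.modEq_iff_dvd.1 h2.symm)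
        exact h3
      have h2 : (p : ℤ) ∣ q := by
        have h3 : (q : ℤ) = ((r : ℤ) + m) + ((n : ℤ) - r) := by rw [hm]; ring
        rw [h3]
        exact dvd_add hpd h1
      have h3 : p ∣ q := by exact_mod_cast h2
      have h4 := mem_PW.1 hp
      refine hsmall p (le_trans ?_ hyX) ((Nat.prime_dvd_prime_iff_eq h4.2.1 hq).1 h3)
      exact_mod_cast h4.1
  · -- the excess
    have hn0 : (0 : ℝ) < n := by linarith
    have hLn : L ≤ Real.log n := Real.log_le_log hX0 hn1.le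
    have hLn2 : Real.log n ≤ L + 2 := by
      refine (Real.log_le_log hn0 hn2).trans ?_
      rw [Real.log_mul (by norm_num) hX0.ne']
      have := Real.log_le_sub_one_of_pos (show (0 : ℝ) < 3 by norm_num)
      linarith
    have hN : n + H ≤ ⌊(n : ℝ) + (Real.log n) ^ B⌋₊ := by
      apply Nat.le_floor
      push_cast
      have : L ^ B ≤ (Real.log n) ^ B := by gcongr
      linarith
    have h1 := card_primes_le n K H J (filter_subset _ _) _ hN
    refine le_trans ?_ (hn6.trans h1)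
    have h2 : (Real.log n) ^ (B - 1) ≤ (L + 2) ^ (B - 1) := by
      apply Real.rpow_le_rpow (by linarith) hLn2 (by linarith)
    have h3 : 0 ≤ (Real.log n) ^ (B - 1) := by
      apply Real.rpow_nonneg; linarith
    calc κ * (Real.log n) ^ (B - 1) ≤ κ₀ * (Real.log n) ^ (B - 1) := by
          apply mul_le_mul_of_nonneg_right (le_max_left _ _) h3
      _ ≤ κ₀ * (L + 2) ^ (B - 1) := by gcongr
      _ ≤ κ₁ * (L ^ B - 1) / L := hlen
      _ ≤ κ₁ * H / L := by
          have : 0 < κ₁ := by linarith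
          gcongr
          linarith

end Pool.Agent.H22.RC
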