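import Mathlib

set_option autoImplicit false

/-! # The harmonic sum over the numbers composed of given primes, by the trick of Rankin -/

namespace Pool.Agent.H22.RC

open Finset

open scoped Classical

/-- `m ^ (s - 1)` as a homomorphism -/
noncomputable def rkHom (s : ℝ) : ℕ →* ℝ where
  toFun n := (n : ℝ) ^ (s - 1)
  map_one' := by simp
  map_mul' a b := by
    push_cast
    rw [Real.mul_rpow (Nat.cast_nonneg _) (Nat.cast_nonneg _)]

theorem rk_hasSum (P : Finset ℕ) (hP : ∀ p ∈ P, p.Prime) (s : ℝ) (hs : s < 1) :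
    HasSum (fun m : Nat.factoredNumbers P => ((m : ℕ) : ℝ) ^ (s - 1)) (∏ p ∈ P, (1 - (p : ℝ) ^ (s - 1))⁻¹) := by
  have hlt : ∀ {p : ℕ}, p.Prime → ‖rkHom s p‖ < 1 := by
    intro p hp
    have hp2 : (1 : ℝ) < p := by exact_mod_cast hp.one_lt
    show ‖((p : ℝ)) ^ (s - 1)‖ < 1
    rw [Real.norm_of_nonneg (Real.rpow_nonneg (by linarith) _)]
    exact Real.rpow_lt_one_of_one_lt_of_neg hp2 (by linarith)
  obtain ⟨h1, h2⟩ := EulerProduct.summable_and_hasSum_factoredNumbers_prod_filter_prime_geometric hlt P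
  have h3 : ∏ p ∈ P with p.Prime, (1 - rkHom s p)⁻¹ = ∏ p ∈ P, (1 - (p : ℝ) ^ (s - 1))⁻¹ := by
    rw [Finset.filter_true_of_mem hP]
    rfl
  rw [h3] at h2
  exact h2

theorem harm_lower (P : Finset ℕ) (V : ℝ) (hV : 2 ≤ V) (hP : ∀ p ∈ P, p.Prime ∧ 6 ≤ p ∧ Real.log p ≤ V)
    (hs : ∑ p ∈ P, Real.log p / p ≤ 2 * V) (D : ℕ) (hD : 1 ≤ D) :
    (1 - Real.exp (8 - Real.log D / V)) * ∏ p ∈ P, (1 - 1 / (p : ℝ))⁻¹ ≤
      ∑ m ∈ (Icc 1 D).filter (fun m => ∀ p : ℕ, p.Prime → p ∣ m → p ∈ P), 1 / (m : ℝ) := by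
  have hV0 : 0 < V := by linarith
  set σ : ℝ := 1 / V with hσ
  have hσ0 : 0 < σ := by positivity
  have hσ1 : σ < 1 := by rw [hσ, div_lt_one hV0]; linarith
  have hPp : ∀ p ∈ P, p.Prime := fun p hp => (hP p hp).1
  have s0 := rk_hasSum P hPp 0 one_pos
  have s1 := rk_hasSum P hPp σ hσ1
  have e0 : ∏ p ∈ P, (1 - (p : ℝ) ^ ((0 : ℝ) - 1))⁻¹ = ∏ p ∈ P, (1 - 1 / (p : ℝ))⁻¹ := by
    apply prod_congr rfl
    intro p _
    rw [zero_sub, Real.rpow_neg_one, one_div]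
  rw [e0] at s0
  have hD0 : (0 : ℝ) < D := by exact_mod_cast hD
  -- the finite sum as a sum over the factored numbers
  set M := (Icc 1 D).filter (fun m => ∀ p : ℕ, p.Prime → p ∣ m → p ∈ P) with hM
  have hMf : ∀ m ∈ M, m ∈ Nat.factoredNumbers P := by
    intro m hm
    rw [hM, mem_filter, mem_Icc] at hm
    rw [Nat.mem_factoredNumbers_iff_primeFactors_subset]
    exact ⟨by omega, fun p hp => hm.2 p (Nat.prime_of_mem_primeFactors hp) (Nat.dvd_of_mem_primeFactors hp)⟩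
  have s2 : HasSum (fun m : Nat.factoredNumbers P => if (m : ℕ) ∈ M then 1 / ((m : ℕ) : ℝ) else 0)
      (∑ m ∈ M, 1 / (m : ℝ)) := by
    set M' : Finset (Nat.factoredNumbers P) := M.attach.image (fun m => (⟨m.1, hMf m.1 m.2⟩ : Nat.factoredNumbers P)) with hM'
    have h1 : ∑ m ∈ M, 1 / (m : ℝ) = ∑ m ∈ M', (if (m : ℕ) ∈ M then 1 / ((m : ℕ) : ℝ) else 0) := by
      rw [hM', Finset.sum_image]
      · rw [← Finset.sum_attach]
        apply Finset.sum_congr rfl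
        intro m _
        simp only [m.2, if_true]
      · intro a _ b _ hab
        simp only [Subtype.mk.injEq] at hab
        exact Subtype.ext hab
    rw [h1]
    apply hasSum_sum_of_ne_finset_zero
    intro m hm
    rw [if_neg]
    intro hmM
    apply hm
    rw [hM', mem_image]
    exact ⟨⟨m, hmM⟩, mem_attach _ _, rfl⟩
  have hle : ∀ m : Nat.factoredNumbers P, ((m : ℕ) : ℝ) ^ ((0 : ℝ) - 1) ≤
      (if (m : ℕ) ∈ M then 1 / ((m : ℕ) : ℝ) else 0) + (D : ℝ) ^ (-σ) * ((m : ℕ) : ℝ) ^ (σ - 1) := by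
    intro m
    have hm0 : (m : ℕ) ≠ 0 := Nat.ne_zero_of_mem_factoredNumbers m.2
    have hm1 : (0 : ℝ) < ((m : ℕ) : ℝ) := by exact_mod_cast Nat.pos_of_ne_zero hm0
    have hnn : 0 ≤ (D : ℝ) ^ (-σ) * ((m : ℕ) : ℝ) ^ (σ - 1) := by positivity
    rw [zero_sub, Real.rpow_neg_one]
    by_cases h : (m : ℕ) ∈ M
    · rw [if_pos h, one_div]
      linarith
    · rw [if_neg h, zero_add]
      have hDm : D < (m : ℕ) := by
        by_contra hcon
        apply h
        rw [hM, mem_filter, mem_Icc]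
        refine ⟨⟨Nat.pos_of_ne_zero hm0, not_lt.1 hcon⟩, fun p hp hd => ?_⟩
        exact (Nat.mem_factoredNumbers_iff_primeFactors_subset.1 m.2).2 (Nat.mem_primeFactors.2 ⟨hp, hd, hm0⟩)
      have hDm' : (D : ℝ) ≤ ((m : ℕ) : ℝ) := by exact_mod_cast hDm.le
      have h1 : (1 : ℝ) ≤ (D : ℝ) ^ (-σ) * ((m : ℕ) : ℝ) ^ σ := by
        rw [Real.rpow_neg hD0.le, inv_mul_eq_div, one_le_div (by positivity)]
        exact Real.rpow_le_rpow hD0.le hDm' hσ0.le
      rw [Real.rpow_sub_one hm1.ne', ← mul_div_assoc, inv_eq_one_div]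
      exact div_le_div_of_nonneg_right h1 hm1.le
  have hkey := hasSum_le hle s0 (s2.add (s1.mul_left ((D : ℝ) ^ (-σ))))
  -- the quotient of the products
  have hpp : ∀ p ∈ P, (6 : ℝ) ≤ p ∧ 0 ≤ Real.log p ∧ (p : ℝ) ^ σ ≤ 1 + 2 * (σ * Real.log p) ∧
      (p : ℝ) ^ σ ≤ 3 ∧ 1 ≤ (p : ℝ) ^ σ := by
    intro p hp
    obtain ⟨h1, h2, h3⟩ := hP p hp
    have h6 : (6 : ℝ) ≤ p := by exact_mod_cast h2
    have hlp : 0 ≤ Real.log p := Real.log_nonneg (by linarith)
    have hx : σ * Real.log p ≤ 1 := by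
      rw [hσ, one_div_mul_eq_div, div_le_one hV0]; exact h3
    have hx0 : 0 ≤ σ * Real.log p := by positivity
    have hr : (p : ℝ) ^ σ = Real.exp (σ * Real.log p) := by
      rw [Real.rpow_def_of_pos (by linarith), mul_comm]
    have hb := Real.exp_bound_div_one_sub_of_interval (x := σ * Real.log p / 2) (by positivity) (by linarith)
    have he : Real.exp (σ * Real.log p) ≤ 1 + 2 * (σ * Real.log p) := by
      have h4 := Real.abs_exp_sub_one_sub_id_le (x := σ * Real.log p) (by rw [abs_of_nonneg hx0]; exact hx)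
      have h5 := (abs_le.1 h4).2
      nlinarith
    refine ⟨h6, hlp, by rw [hr]; exact he, by rw [hr]; linarith, by rw [hr]; exact Real.one_le_exp hx0⟩
  have hfac : ∀ p ∈ P, (1 - (p : ℝ) ^ (σ - 1))⁻¹ ≤
      (1 - 1 / (p : ℝ))⁻¹ * Real.exp (4 * σ * (Real.log p / p)) := by
    intro p hp
    obtain ⟨h6, hlp, h2, h3, h1⟩ := hpp p hp
    have hp0 : (0 : ℝ) < p := by linarith
    rw [Real.rpow_sub_one hp0.ne']
    set a := (p : ℝ) ^ σ with ha
    set x := 1 / (p : ℝ) with hx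
    have hx0 : 0 < x := by positivity
    have hx6 : x ≤ 1 / 6 := one_div_le_one_div_of_le (by norm_num) h6
    have hax : a / p = a * x := by rw [hx]; ring
    rw [hax]
    have h4 : 0 < 1 - a * x := by nlinarith
    have h5 : 0 < 1 - x := by linarith
    rw [← div_eq_inv_mul, inv_eq_one_div, div_le_div_iff₀ h4 h5, one_mul]
    have h7 : 4 * σ * (Real.log p / p) = 2 * (2 * (σ * Real.log p)) * x := by rw [hx]; ring
    rw [h7]
    have h8 : 1 + 2 * (a - 1) * x ≤ Real.exp (2 * (2 * (σ * Real.log p)) * x) := by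
      have h9 := Real.add_one_le_exp (2 * (2 * (σ * Real.log p)) * x)
      have h10 : 2 * (a - 1) * x ≤ 2 * (2 * (σ * Real.log p)) * x := by
        apply mul_le_mul_of_nonneg_right _ hx0.le
        linarith
      linarith
    have h9 : 1 - x ≤ (1 + 2 * (a - 1) * x) * (1 - a * x) := by
      have h10 : (1 + 2 * (a - 1) * x) * (1 - a * x) - (1 - x) = (a - 1) * x * (1 - 2 * a * x) := by ring
      have h11 : 0 ≤ 1 - 2 * a * x := by nlinarith
      have h12 : 0 ≤ (a - 1) * x * (1 - 2 * a * x) := by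
        have : 0 ≤ a - 1 := by linarith
        positivity
      linarith
    calc 1 - x ≤ (1 + 2 * (a - 1) * x) * (1 - a * x) := h9
      _ ≤ Real.exp (2 * (2 * (σ * Real.log p)) * x) * (1 - a * x) := mul_le_mul_of_nonneg_right h8 h4.le
  have hprod : ∏ p ∈ P, (1 - (p : ℝ) ^ (σ - 1))⁻¹ ≤ (∏ p ∈ P, (1 - 1 / (p : ℝ))⁻¹) * Real.exp 8 := by
    have h1 : ∏ p ∈ P, (1 - (p : ℝ) ^ (σ - 1))⁻¹ ≤
        ∏ p ∈ P, ((1 - 1 / (p : ℝ))⁻¹ * Real.exp (4 * σ * (Real.log p / p))) := by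
      apply prod_le_prod
      · intro p hp
        obtain ⟨h6, hlp, h2, h3, h1⟩ := hpp p hp
        rw [Real.rpow_sub_one (by linarith)]
        have : (p : ℝ) ^ σ / p ≤ 1 := by
          rw [div_le_one (by linarith)]
          linarith
        exact inv_nonneg.2 (by linarith)
      · exact hfac
    refine h1.trans ?_
    rw [prod_mul_distrib, ← Real.exp_sum, ← mul_sum]
    have h2 : 0 ≤ ∏ p ∈ P, (1 - 1 / (p : ℝ))⁻¹ := by
      apply prod_nonneg
      intro p hp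
      obtain ⟨h6, _⟩ := hpp p hp
      have : 1 / (p : ℝ) ≤ 1 := by rw [div_le_one (by linarith)]; linarith
      exact inv_nonneg.2 (by linarith)
    apply mul_le_mul_of_nonneg_left _ h2
    apply Real.exp_le_exp.2
    calc 4 * σ * ∑ p ∈ P, Real.log p / p ≤ 4 * σ * (2 * V) := by gcongr
      _ = 8 := by rw [hσ]; field_simp; norm_num
  have hDs : (D : ℝ) ^ (-σ) = Real.exp (-(Real.log D / V)) := by
    rw [Real.rpow_def_of_pos hD0, hσ]
    congr 1
    ring
  have hfin : (D : ℝ) ^ (-σ) * ∏ p ∈ P, (1 - (p : ℝ) ^ (σ - 1))⁻¹ ≤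
      Real.exp (8 - Real.log D / V) * ∏ p ∈ P, (1 - 1 / (p : ℝ))⁻¹ := by
    calc (D : ℝ) ^ (-σ) * ∏ p ∈ P, (1 - (p : ℝ) ^ (σ - 1))⁻¹
        ≤ (D : ℝ) ^ (-σ) * ((∏ p ∈ P, (1 - 1 / (p : ℝ))⁻¹) * Real.exp 8) := by
          apply mul_le_mul_of_nonneg_left hprod (by positivity)
      _ = (Real.exp (-(Real.log D / V)) * Real.exp 8) * ∏ p ∈ P, (1 - 1 / (p : ℝ))⁻¹ := by rw [hDs]; ring
      _ = _ := by
          rw [← Real.exp_add]
          congr 2
          ring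
  linarith

end Pool.Agent.H22.RC
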