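import Pool.Agent.H22.RC.Harm
import Pool.Agent.H22.RC.Win
import Pool.Graph.R_pool_sql_team_seeded_b0a926ef.R529.BU.Step

set_option autoImplicit false
set_option maxHeartbeats 4000000

/-! # The number of integers of a longer interval which are not removed by the class zero -/

namespace Pool.Agent.H22.RC

open Finset Filter Topology
open Pool.Agent.TH101.RG (V0)
open Pool.Agent.R529.BU (om om_cont om_ge om_le QA_all RR mem_RR)
open Pool.Agent.H510R2.Maier (R2 R2_real)

open scoped Classical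

/-- growth of the parameters -/
theorem ev_V0 (A : ℝ) : ∀ᶠ y : ℕ in atTop, A ≤ V0 y := by
  have t1 : Tendsto (fun y : ℕ => Real.log (Real.log y)) atTop atTop :=
    Real.tendsto_log_atTop.comp (Real.tendsto_log_atTop.comp tendsto_natCast_atTop_atTop)
  have t2 : Tendsto (fun y : ℕ => Real.log (Real.log (Real.log y))) atTop atTop := Real.tendsto_log_atTop.comp t1
  have h1 : ∀ᶠ t : ℝ in atTop, t * (10 * max A 1) ≤ Real.exp t := by
    have := (isLittleO_pow_exp_pos_mul_atTop (k := 1) (show (0 : ℝ) < 1 by norm_num)).def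
      (show (0 : ℝ) < 1 / (10 * max A 1) by positivity)
    filter_upwards [this, eventually_ge_atTop 0] with t h2 h3
    rw [pow_one, one_mul, Real.norm_of_nonneg h3, Real.norm_of_nonneg (Real.exp_pos _).le] at h2
    rw [one_div_mul_eq_div, le_div_iff₀ (by positivity)] at h2
    exact h2
  filter_upwards [t1.eventually h1, t1.eventually_ge_atTop 1, t2.eventually_ge_atTop 1,
    (Real.tendsto_log_atTop.comp tendsto_natCast_atTop_atTop).eventually_ge_atTop (1 : ℝ)] with y h2 h3 h4 h5
  simp only [Function.comp] at h5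
  rw [Real.exp_log (by linarith)] at h2
  unfold V0
  rw [le_div_iff₀ (by linarith)]
  have h6 : A ≤ max A 1 := le_max_left _ _
  have h7 : 0 < max A 1 := lt_of_lt_of_le one_pos (le_max_right _ _)
  calc A * (10 * Real.log (Real.log y)) ≤ max A 1 * (10 * Real.log (Real.log y)) := by gcongr
    _ = Real.log (Real.log y) * (10 * max A 1) := by ring
    _ ≤ Real.log y := h2
    _ ≤ Real.log y * Real.log (Real.log (Real.log y)) := le_mul_of_one_le_right (by linarith) h4

theorem ev_ratio (δ A : ℝ) (hδ : 0 < δ) : ∀ᶠ y : ℕ in atTop,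
    A ≤ Real.log (⌊(y : ℝ) ^ δ⌋₊ : ℕ) / V0 y := by
  have t1 : Tendsto (fun y : ℕ => Real.log (Real.log y)) atTop atTop :=
    Real.tendsto_log_atTop.comp (Real.tendsto_log_atTop.comp tendsto_natCast_atTop_atTop)
  have h1 : ∀ᶠ t : ℝ in atTop, Real.log t * max A 1 ≤ 5 * δ * t := by
    have := Real.isLittleO_log_id_atTop.def (show (0 : ℝ) < 5 * δ / max A 1 by positivity)
    filter_upwards [this, eventually_ge_atTop 1] with t h2 h3
    rw [Real.norm_of_nonneg (Real.log_nonneg h3), id, Real.norm_of_nonneg (by linarith)] at h2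
    have h4 : 0 < max A 1 := lt_of_lt_of_le one_pos (le_max_right _ _)
    calc Real.log t * max A 1 ≤ 5 * δ / max A 1 * t * max A 1 := by gcongr
      _ = 5 * δ * t := by field_simp
  have h2 : ∀ᶠ y : ℝ in atTop, 2 ≤ y ^ (δ / 2) := (tendsto_rpow_atTop (by positivity)).eventually_ge_atTop 2
  filter_upwards [t1.eventually h1, ev_V0 1, tendsto_natCast_atTop_atTop.eventually h2, eventually_ge_atTop 3,
    t1.eventually_ge_atTop 1] with y h3 h4 h5 h6 h7
  have hy0 : (0 : ℝ) < y := by exact_mod_cast (by omega : 0 < y)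
  have hly : 0 < Real.log y := Real.log_pos (by exact_mod_cast (by omega : 1 < y))
  rw [le_div_iff₀ (by linarith)]
  have h8 : δ / 2 * Real.log y ≤ Real.log (⌊(y : ℝ) ^ δ⌋₊ : ℕ) := by
    have h9 : (y : ℝ) ^ (δ / 2) ≤ (⌊(y : ℝ) ^ δ⌋₊ : ℕ) := by
      have h10 : (y : ℝ) ^ δ < (⌊(y : ℝ) ^ δ⌋₊ : ℕ) + 1 := Nat.lt_floor_add_one _
      have h11 : (y : ℝ) ^ δ = (y : ℝ) ^ (δ / 2) * (y : ℝ) ^ (δ / 2) := by
        rw [← Real.rpow_add hy0]; congr 1; ring
      nlinarith
    rw [← Real.log_rpow hy0]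
    exact Real.log_le_log (by positivity) h9
  refine le_trans ?_ h8
  have h9 : A ≤ max A 1 := le_max_left _ _
  have h10 : 0 ≤ V0 y := by linarith
  calc A * V0 y ≤ max A 1 * V0 y := mul_le_mul_of_nonneg_right h9 h10
    _ = Real.log y * (Real.log (Real.log (Real.log y)) * max A 1) / (10 * Real.log (Real.log y)) := by
        unfold V0; ring
    _ ≤ Real.log y * (5 * δ * Real.log (Real.log y)) / (10 * Real.log (Real.log y)) := by
        gcongr
    _ = δ / 2 * Real.log y := by field_simp; ring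

/-- the sum of `log p / p` over the primes chosen by averaging -/
theorem ev_sum : ∀ᶠ y : ℕ in atTop, ∀ F : Finset ℕ, ∑ p ∈ GP y F, Real.log p / p ≤ 2 * V0 y := by
  obtain ⟨C, hC⟩ := R2_real
  filter_upwards [ev_V0 (max C 0)] with y hy F
  have hV : 0 ≤ V0 y := (le_max_right _ _).trans hy
  have h1 := (abs_le.1 (hC (Real.exp (V0 y)) (Real.one_le_exp hV))).2
  rw [Real.log_exp] at h1
  have h2 : C ≤ V0 y := (le_max_left _ _).trans hy
  have h3 : ∑ p ∈ GP y F, Real.log p / p ≤ R2 ⌊Real.exp (V0 y)⌋₊ := by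
    unfold R2
    apply sum_le_sum_of_subset_of_nonneg
    · intro p hp
      obtain ⟨h4, h5, h6⟩ := mem_GP.1 hp
      have hpp := (mem_PQ.1 h4).2.1
      rw [mem_filter, mem_Icc]
      refine ⟨⟨hpp.pos, Nat.le_floor ?_⟩, hpp⟩
      rw [← Real.log_le_iff_le_exp (by exact_mod_cast hpp.pos)]
      exact h6
    · intro p hp _
      have : (1 : ℝ) ≤ p := by exact_mod_cast (mem_filter.1 hp).2.one_lt.le
      exact div_nonneg (Real.log_nonneg this) (by linarith)
  linarith

/-- the lower bound -/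
theorem rough_lower (B : ℝ) (hB : 1 < B) (ε : ℝ) (hε : 0 < ε) : ∃ τ : ℝ, 0 < τ ∧ ∀ᶠ y : ℕ in atTop,
    ∀ (F : Finset ℕ) (H : ℕ), (y : ℝ) ^ B ≤ H → (H : ℝ) ≤ (y : ℝ) ^ (B + τ) →
      (om B - ε) * (H / Real.log y) ≤
        (((Icc 1 H).filter (fun j => ∀ p ∈ PQ y F, p ∉ GP y F → ¬ p ∣ j)).card : ℝ) *
          ∏ p ∈ GP y F, (1 - 1 / (p : ℝ)) := by
  -- continuity
  obtain ⟨r, hr0, hr⟩ := Metric.continuousAt_iff.1 (om_cont.continuousAt (x := B)) (ε / 4) (by positivity)
  set δ : ℝ := min (r / 2) (min ((B - 1) / 2) 1) with hδ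
  have hδ0 : 0 < δ := by
    rw [hδ]
    exact lt_min (by positivity) (lt_min (by linarith) one_pos)
  have hδr : δ < r := by
    have := min_le_left (r / 2) (min ((B - 1) / 2) 1)
    linarith
  have hδB : δ ≤ (B - 1) / 2 := (min_le_right _ _).trans (min_le_left _ _)
  have hδ1 : δ ≤ 1 := (min_le_right _ _).trans (min_le_right _ _)
  obtain ⟨n, hn⟩ := exists_nat_ge (max 2 (B + 1))
  have hn2 : 2 ≤ n := by exact_mod_cast (le_max_left (2 : ℝ) (B + 1)).trans hn
  have hnB : B + 1 ≤ n := (le_max_right _ _).trans hn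
  obtain ⟨z0, hz0⟩ := QA_all n hn2 (B - δ - 1) (ε / 4) (by linarith) (by positivity)
  refine ⟨δ, hδ0, ?_⟩
  filter_upwards [ev_V0 2, ev_ratio δ (8 + Real.log (2 / min ε 1)) hδ0, ev_sum, eventually_ge_atTop ⌈z0⌉₊,
    eventually_ge_atTop 3,
    (Real.tendsto_log_atTop.comp tendsto_natCast_atTop_atTop).eventually_ge_atTop (3 : ℝ)]
    with y g1 g2 g3 g4 g5 g6 F H hH1 hH2
  simp only [Function.comp] at g6
  have hy0 : (0 : ℝ) < y := by exact_mod_cast (by omega : 0 < y)
  have hy1 : (1 : ℝ) < y := by exact_mod_cast (by omega : 1 < y)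
  have hly : 0 < Real.log y := by linarith
  have hyz : z0 ≤ (y : ℝ) := (Nat.le_ceil _).trans (by exact_mod_cast g4)
  have hH0 : (0 : ℝ) < H := lt_of_lt_of_le (by positivity) hH1
  set D : ℕ := ⌊(y : ℝ) ^ δ⌋₊ with hD
  have hD1 : 1 ≤ D := by
    apply Nat.le_floor
    rw [Nat.cast_one]
    exact Real.one_le_rpow hy1.le hδ0.le
  have hDy : (D : ℝ) ≤ (y : ℝ) ^ δ := Nat.floor_le (by positivity)
  set P := GP y F with hP
  have hPp : ∀ p ∈ P, p.Prime := fun p hp => (mem_PQ.1 (mem_GP.1 hp).1).2.1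
  have hharm := harm_lower P (V0 y) g1 (fun p hp => by
    obtain ⟨h1, h2, h3⟩ := mem_GP.1 hp
    refine ⟨hPp p hp, ?_, h3⟩
    have h4 : (6 : ℝ) ≤ p := by nlinarith
    exact_mod_cast h4) (g3 F) D hD1
  set M := (Icc 1 D).filter (fun m => ∀ p : ℕ, p.Prime → p ∣ m → p ∈ P) with hM
  set Qp := ∏ p ∈ P, (1 - 1 / (p : ℝ)) with hQp
  have hQp0 : 0 < Qp := prod_pos fun p hp => one_sub_pos (hPp p hp)
  have hQpi : ∏ p ∈ P, (1 - 1 / (p : ℝ))⁻¹ = Qp⁻¹ := by rw [hQp, prod_inv_distrib]
  rw [hQpi] at hharm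
  set J := (Icc 1 H).filter (fun j => ∀ p ∈ PQ y F, p ∉ P → ¬ p ∣ j) with hJ
  -- the number of elements of J
  have hcount : ∑ m ∈ M, (RR ((H : ℝ) / m) y).card ≤ J.card := by
    have hinj : ∀ m ∈ M, ((RR ((H : ℝ) / m) y).image (fun k => m * k)).card = (RR ((H : ℝ) / m) y).card := by
      intro m hm
      rw [hM, mem_filter, mem_Icc] at hm
      rw [card_image_of_injective]
      intro a b hab
      exact Nat.eq_of_mul_eq_mul_left (by omega) hab
    rw [← sum_congr rfl hinj, ← card_biUnion]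
    · apply card_le_card
      intro j hj
      rw [mem_biUnion] at hj
      obtain ⟨m, hm, hj⟩ := hj
      rw [mem_image] at hj
      obtain ⟨k, hk, rfl⟩ := hj
      rw [hM, mem_filter, mem_Icc] at hm
      obtain ⟨⟨hk1, hk2⟩, hk3⟩ := mem_RR.1 hk
      have hm0 : (0 : ℝ) < m := by exact_mod_cast (by omega : 0 < m)
      have hk4 : (k : ℝ) ≤ (H : ℝ) / m := (Nat.le_floor_iff (by positivity)).1 hk2
      rw [hJ, mem_filter, mem_Icc]
      refine ⟨⟨Nat.mul_pos (by omega) (by omega), ?_⟩, fun p hp hpP hd => ?_⟩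
      · rw [le_div_iff₀ hm0] at hk4
        have : ((m * k : ℕ) : ℝ) ≤ H := by push_cast; linarith
        exact_mod_cast this
      · obtain ⟨hpy, hpp, hpF⟩ := mem_PQ.1 hp
        rcases (Nat.Prime.dvd_mul hpp).1 hd with h | h
        · exact hpP (hm.2 p hpp h)
        · have := hk3 p hpp h
          have h5 : (p : ℝ) ≤ y := by exact_mod_cast hpy
          linarith
    · intro m hm m' hm' hne
      rw [Function.onFun, disjoint_left]
      intro j hj hj'
      rw [mem_image] at hj hj'
      obtain ⟨k, hk, rfl⟩ := hj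
      obtain ⟨k', hk', he⟩ := hj'
      apply hne
      have hm := (mem_filter.1 (mem_coe.1 hm))
      have hm' := (mem_filter.1 (mem_coe.1 hm'))
      have hco : ∀ (a b : ℕ), (∀ p : ℕ, p.Prime → p ∣ a → p ∈ P) → (∀ p : ℕ, p.Prime → p ∣ b → (y : ℝ) < p) →
          a.Coprime b := by
        intro a b ha hb
        apply Nat.Coprime.symm
        rw [Nat.coprime_iff_isRelPrime, ← Nat.coprime_iff_isRelPrime]
        refine Nat.coprime_of_dvd fun p hp h1 h2 => ?_
        have h3 := hb p hp h1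
        have h4 := (mem_PQ.1 (mem_GP.1 (ha p hp h2)).1).1
        have h5 : (p : ℝ) ≤ y := by exact_mod_cast h4
        linarith
      have hc1 := hco m k' hm.2 (mem_RR.1 hk').2
      have hc2 := hco m' k hm'.2 (mem_RR.1 hk).2
      apply Nat.dvd_antisymm
      · apply hc1.dvd_of_dvd_mul_right
        show m ∣ m' * k'
        rw [he]
        exact dvd_mul_right _ _
      · apply hc2.dvd_of_dvd_mul_right
        rw [← he]
        exact dvd_mul_right _ _
  -- every term
  have hterm : ∀ m ∈ M, (om B - ε / 2) * (H / Real.log y) * (1 / m) ≤ ((RR ((H : ℝ) / m) y).card : ℝ) := by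
    intro m hm
    rw [hM, mem_filter, mem_Icc] at hm
    have hm1 : (1 : ℝ) ≤ m := by exact_mod_cast hm.1.1
    have hm0 : (0 : ℝ) < m := by linarith
    have hmD : (m : ℝ) ≤ (y : ℝ) ^ δ := le_trans (by exact_mod_cast hm.1.2) hDy
    have hx1 : (y : ℝ) ^ (B - δ) ≤ (H : ℝ) / m := by
      rw [le_div_iff₀ hm0]
      calc (y : ℝ) ^ (B - δ) * m ≤ (y : ℝ) ^ (B - δ) * (y : ℝ) ^ δ := by gcongr
        _ = (y : ℝ) ^ B := by rw [← Real.rpow_add hy0]; congr 1; ring
        _ ≤ H := hH1
    have hx2 : (H : ℝ) / m ≤ (y : ℝ) ^ (B + δ) := by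
      refine (div_le_self hH0.le hm1).trans hH2
    set x := (H : ℝ) / m with hx
    have hx0 : 0 < x := by positivity
    have hQ := hz0 y hyz x (by
      have : (1 : ℝ) + (B - δ - 1) = B - δ := by ring
      rw [this]
      exact hx1) (hx2.trans (by
        apply Real.rpow_le_rpow_of_exponent_le hy1.le
        linarith))
    have hlx1 : (B - δ) * Real.log y ≤ Real.log x := by
      rw [← Real.log_rpow hy0]
      exact Real.log_le_log (by positivity) hx1
    have hlx2 : Real.log x ≤ (B + δ) * Real.log y := by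
      rw [← Real.log_rpow hy0]
      exact Real.log_le_log hx0 hx2
    set u := Real.log x / Real.log y with hu
    have hu1 : B - δ ≤ u := by rw [hu, le_div_iff₀ hly]; exact hlx1
    have hu2 : u ≤ B + δ := by rw [hu, div_le_iff₀ hly]; exact hlx2
    have hu0 : 1 ≤ u := by linarith
    have hlxu : Real.log x = u * Real.log y := by rw [hu]; field_simp
    have hom : om B - ε / 4 ≤ om u := by
      have h1 := hr (x := u) (by
        rw [Real.dist_eq, abs_lt]
        constructor <;> linarith)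
      rw [Real.dist_eq, abs_lt] at h1
      linarith
    have h2 := (abs_le.1 hQ).1
    have h3 : x * (u * om u) - ε / 4 * x ≤ ((RR x y).card : ℝ) * (u * Real.log y) := by
      rw [← hlxu]
      have : Pool.Agent.R529.BU.WW u = u * om u := rfl
      rw [this] at h2
      linarith
    have h4 : (om B - ε / 2) * x * u ≤ x * (u * om u) - ε / 4 * x := by
      have h5 : ε / 4 * x ≤ ε / 4 * x * u := le_mul_of_one_le_right (by positivity) hu0
      have h6 : (om B - ε / 4) * (x * u) ≤ om u * (x * u) := mul_le_mul_of_nonneg_right hom (by positivity)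
      nlinarith
    have h5 : (om B - ε / 2) * x * u ≤ ((RR x y).card : ℝ) * Real.log y * u := by
      calc _ ≤ _ := h4.trans h3
        _ = _ := by ring
    have h6 := le_of_mul_le_mul_right h5 (by linarith)
    calc (om B - ε / 2) * (H / Real.log y) * (1 / m) = (om B - ε / 2) * x / Real.log y := by rw [hx]; field_simp
      _ ≤ _ := by rw [div_le_iff₀ hly]; exact h6
  have hsum : (om B - ε / 2) * (H / Real.log y) * ∑ m ∈ M, 1 / (m : ℝ) ≤ J.card := by
    rw [mul_sum]
    refine (sum_le_sum hterm).trans ?_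
    exact_mod_cast hcount
  -- the end
  have hJ0 : (0 : ℝ) ≤ (J.card : ℝ) * Qp := by positivity
  rcases le_total (om B - ε / 2) 0 with hc | hc
  · refine le_trans ?_ hJ0
    apply mul_nonpos_of_nonpos_of_nonneg (by linarith) (by positivity)
  have hex : Real.exp (8 - Real.log D / V0 y) ≤ min ε 1 / 2 := by
    have hε1 : 0 < min ε 1 := lt_min hε one_pos
    rw [← Real.exp_log (show 0 < min ε 1 / 2 by positivity)]
    apply Real.exp_le_exp.2
    have h1 : Real.log (2 / min ε 1) = -Real.log (min ε 1 / 2) := by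
      rw [← Real.log_inv]; congr 1; field_simp
    rw [h1] at g2
    linarith
  have hex' : Real.exp (8 - Real.log D / V0 y) ≤ ε / 2 := hex.trans (by
    have := min_le_left ε 1
    linarith)
  set e := Real.exp (8 - Real.log D / V0 y) with he
  have hom1 := om_le B hB.le
  have hHl : 0 ≤ (H : ℝ) / Real.log y := by positivity
  calc (om B - ε) * (H / Real.log y) ≤ (om B - ε / 2) * (H / Real.log y) * (1 - e) := by
        have h1 : om B - ε ≤ (om B - ε / 2) * (1 - e) := by nlinarith [Real.exp_pos (8 - Real.log D / V0 y)]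
        calc (om B - ε) * (H / Real.log y) ≤ ((om B - ε / 2) * (1 - e)) * (H / Real.log y) :=
              mul_le_mul_of_nonneg_right h1 hHl
          _ = _ := by ring
    _ = ((om B - ε / 2) * (H / Real.log y) * ((1 - e) * Qp⁻¹)) * Qp := by field_simp
    _ ≤ ((om B - ε / 2) * (H / Real.log y) * ∑ m ∈ M, 1 / (m : ℝ)) * Qp := by
        gcongr
    _ ≤ (J.card : ℝ) * Qp := by
        apply mul_le_mul_of_nonneg_right hsum hQp0.le

end Pool.Agent.H22.RC
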